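import Pool.Agent.Helper79_WRA.Basic
import Pool.Agent.Helper79_WRA.Stmt
import Pool.Agent.Helper51_AWC.Defect

/-!
WRA, modules KILL and BR: central elements supported off the centraliser of a normal
`ℓ`-subgroup, multiplicativity of the central character of the induced block.
-/

open scoped BigOperators
open Module

noncomputable section

namespace Pool.Agent.Helper79_WRA.H44

open Pool.Agent.Helper51_AWC

/-- a sum of a function invariant under conjugation by an `ℓ`-subgroup, vanishing at the fixed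
points, vanishes in characteristic `ℓ` -/
theorem sum_fix {F : Type*} [CommRing F] {ℓ : ℕ} [hp : Fact ℓ.Prime] (hF : (ℓ : F) = 0)
    {G : Type} [Group G] [Fintype G] {D : Subgroup G} (hD : IsPGroup ℓ D) (f : G → F)
    (hf : ∀ d ∈ D, ∀ y, f (d * y * d⁻¹) = f y) (h0 : ∀ y, (∀ d ∈ D, d * y = y * d) → f y = 0) :
    ∑ y, f y = 0 := by
  classical
  rw [← Finset.sum_fiberwise_of_maps_to (s := Finset.univ) (t := Finset.univ.image f) (g := f)
    (fun y hy => Finset.mem_image_of_mem f hy)]
  apply Finset.sum_eq_zero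
  intro c _
  have h1 : ∑ y ∈ Finset.univ.filter (fun y => f y = c), f y =
      ((Finset.univ.filter (fun y => f y = c)).card : F) * c := by
    rw [Finset.sum_congr rfl (fun y hy => (Finset.mem_filter.1 hy).2), Finset.sum_const,
      nsmul_eq_mul]
  rw [h1]
  by_cases hc : c = 0
  · rw [hc, mul_zero]
  · let _ : MulAction D {y : G // f y = c} :=
      { smul := fun d y => ⟨d * y * (d : G)⁻¹, by rw [hf d d.2, y.2]⟩
        one_smul := by
          intro y
          apply Subtype.ext
          show (1 : G) * y * (1 : G)⁻¹ = y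
          rw [one_mul, inv_one, mul_one]
        mul_smul := by
          intro d e y
          apply Subtype.ext
          show ((d : G) * e) * y * ((d : G) * e)⁻¹ = d * (e * y * (e : G)⁻¹) * (d : G)⁻¹
          group }
    have h2 := hD.card_modEq_card_fixedPoints {y : G // f y = c}
    have h3 : Nat.card (MulAction.fixedPoints D {y : G // f y = c}) = 0 := by
      rw [Nat.card_eq_zero]
      left
      constructor
      rintro ⟨⟨y, hy⟩, hfix⟩
      apply hc
      rw [← hy]
      apply h0
      intro d hd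
      have h4 := congrArg Subtype.val (hfix ⟨d, hd⟩)
      have h5 : d * y * d⁻¹ = y := h4
      exact mul_inv_eq_iff_eq_mul.1 h5
    rw [h3] at h2
    have h4 : ℓ ∣ Nat.card {y : G // f y = c} := (Nat.modEq_zero_iff_dvd).1 h2
    have h5 : Nat.card {y : G // f y = c} = (Finset.univ.filter (fun y => f y = c)).card := by
      rw [Nat.card_eq_fintype_card, Fintype.card_subtype]
    rw [h5] at h4
    obtain ⟨k, hk⟩ := h4
    rw [hk, Nat.cast_mul, hF, zero_mul, zero_mul]

/-- an `ℓ`-group acting on an abelian group of exponent `ℓ` fixes a nonzero vector -/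
theorem exists_fixed {ℓ : ℕ} [hp : Fact ℓ.Prime] {V : Type*} [AddCommGroup V] {D : Type}
    [Group D] [Finite D] (hD : IsPGroup ℓ D) (L : D → V →+ V) (L_one : ∀ v, L 1 v = v)
    (L_mul : ∀ d e v, L (d * e) v = L d (L e v)) (hV : ∀ v : V, ℓ • v = 0) {v : V}
    (hv : v ≠ 0) :
    ∃ w ∈ AddSubgroup.closure (Set.range fun d => L d v), w ≠ 0 ∧ ∀ d, L d w = w := by
  classical
  set W : AddSubgroup V := AddSubgroup.closure (Set.range fun d => L d v) with hW
  have hfg : AddGroup.FG W := AddGroup.closure_finite_fg (Set.range fun d => L d v)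
  have htors : ∀ w : W, ℓ • w = 0 := fun w => Subtype.ext (hV w)
  have hfin : Finite W := by
    apply AddCommGroup.finite_of_fg_isAddTorsion
    intro w
    exact isOfFinAddOrder_iff_nsmul_eq_zero.2 ⟨ℓ, hp.out.pos, htors w⟩
  have hvW : v ∈ W := by
    apply AddSubgroup.subset_closure
    exact ⟨1, L_one v⟩
  have hdvd : ℓ ∣ Nat.card W := by
    have h1 : addOrderOf (⟨v, hvW⟩ : W) = ℓ := by
      apply addOrderOf_eq_prime (htors _)
      intro h
      exact hv (congrArg Subtype.val h)
    rw [← h1]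
    exact addOrderOf_dvd_natCard _
  have hmap : ∀ d : D, ∀ w ∈ W, L d w ∈ W := by
    intro d w hw
    rw [hW] at hw ⊢
    induction hw using AddSubgroup.closure_induction with
    | mem x hx =>
      obtain ⟨e, rfl⟩ := hx
      apply AddSubgroup.subset_closure
      exact ⟨d * e, L_mul d e v⟩
    | zero => rw [map_zero]; exact AddSubgroup.zero_mem _
    | add x y _ _ hx hy => rw [map_add]; exact AddSubgroup.add_mem _ hx hy
    | neg x _ hx => rw [map_neg]; exact AddSubgroup.neg_mem _ hx
  let _ : MulAction D W :=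
    { smul := fun d w => ⟨L d w, hmap d w w.2⟩
      one_smul := fun w => Subtype.ext (L_one w)
      mul_smul := fun d e w => Subtype.ext (L_mul d e w) }
  have h0 : (0 : W) ∈ MulAction.fixedPoints D W := fun d => Subtype.ext (map_zero (L d))
  obtain ⟨w, hw, hne⟩ := hD.exists_fixed_point_of_prime_dvd_card_of_fixed_point W hdvd h0
  refine ⟨w, w.2, fun h => hne (Subtype.ext h.symm), fun d => congrArg Subtype.val (hw d)⟩

/-! ### values of class functions at irreducible characters -/

section val

variable {H : Type} [Group H] [Fintype H]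

theorem val_classes [Fintype (ConjClasses H)] {ϑ Φ : H → ℂ} (hϑ : ϑ ∈ Irr H)
    (hΦ : ∀ x y, Φ (y * x * y⁻¹) = Φ x) :
    val Φ ϑ = ∑ K : ConjClasses H, omega (MonoidHom.id H) ϑ (Quotient.out K) *
      Φ (Quotient.out K) := by
  have h := sum_classes (φ := ϑ) (ψ := fun g => Φ g⁻¹) (irr_one_ne hϑ) (by
    intro g k
    have e : (k * g * k⁻¹)⁻¹ = k * g⁻¹ * k⁻¹ := by group
    rw [e, hΦ])
  simp only [inv_inv] at h
  rw [val_eq, div_eq_iff (irr_one_ne hϑ), mul_comm _ (ϑ 1), ← h]
  apply Finset.sum_congr rfl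
  intro t _
  ring

variable {M : Ideal (integralClosure ℤ ℂ)}

theorem val_integral {ϑ Φ : H → ℂ} (hϑ : ϑ ∈ Irr H) (hΦ : ∀ x y, Φ (y * x * y⁻¹) = Φ x)
    (hi : ∀ x, IsIntegral ℤ (Φ x)) : IsIntegral ℤ (val Φ ϑ) := by
  classical
  have := Fintype.ofFinite (ConjClasses H)
  rw [val_classes hϑ hΦ]
  exact IsIntegral.sum _ fun K _ => (omega_integral _ hϑ _).mul (hi _)

theorem val_cong {ϑ Φ Ψ : H → ℂ} (hϑ : ϑ ∈ Irr H) (hΦ : ∀ x y, Φ (y * x * y⁻¹) = Φ x)
    (hΨ : ∀ x y, Ψ (y * x * y⁻¹) = Ψ x) (h : ∀ x, Cong M (Φ x) (Ψ x)) :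
    Cong M (val Φ ϑ) (val Ψ ϑ) := by
  classical
  have := Fintype.ofFinite (ConjClasses H)
  rw [val_classes hϑ hΦ, val_classes hϑ hΨ]
  apply Cong.sum
  intro K _
  exact (h _).mul_left (omega_integral _ hϑ _)

theorem act_val {n : ℕ} (ρ : Representation ℂ H (Fin n → ℂ)) (hρ : ρ.IsIrreducible) {Φ : H → ℂ}
    (hΦ : ∀ x y, Φ (y * x * y⁻¹) = Φ x) : act ρ Φ = (val Φ ρ.character) • LinearMap.id := by
  obtain ⟨c, hc⟩ := act_scalar ρ Φ hΦ
  have h1 : ρ.character 1 ≠ 0 := irr_one_ne ⟨n, ρ, hρ, rfl⟩
  have h2 := act_trace ρ Φ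
  rw [hc] at h2
  have h3 : LinearMap.trace ℂ (Fin n → ℂ) (c • LinearMap.id) = c * ρ.character 1 := by
    rw [map_smul, smul_eq_mul]
    congr 1
    rw [Representation.character, map_one]; rfl
  rw [h3] at h2
  rw [hc]
  congr 1
  rw [val_eq, ← h2, mul_div_assoc, div_self h1, mul_one]

theorem conv_eq (a b : H → ℂ) (x : H) : conv a b x = ∑ y, a y * b (y⁻¹ * x) := by
  unfold conv
  rw [finsum_eq_sum_of_fintype]

theorem conv_class {a b : H → ℂ} (ha : ∀ x y, a (y * x * y⁻¹) = a x)
    (hb : ∀ x y, b (y * x * y⁻¹) = b x) (x y : H) : conv a b (y * x * y⁻¹) = conv a b x := by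
  rw [conv_eq, conv_eq]
  symm
  apply Fintype.sum_equiv (MulAut.conj y).toEquiv
  intro z
  show a z * b (z⁻¹ * x) = a (y * z * y⁻¹) * b ((y * z * y⁻¹)⁻¹ * (y * x * y⁻¹))
  have e : (y * z * y⁻¹)⁻¹ * (y * x * y⁻¹) = y * (z⁻¹ * x) * y⁻¹ := by group
  rw [ha, e, hb]

theorem conv_integral {a b : H → ℂ} (ha : ∀ x, IsIntegral ℤ (a x))
    (hb : ∀ x, IsIntegral ℤ (b x)) (x : H) : IsIntegral ℤ (conv a b x) := by
  rw [conv_eq]
  exact IsIntegral.sum _ fun y _ => (ha _).mul (hb _)

theorem val_conv {ϑ a b : H → ℂ} (hϑ : ϑ ∈ Irr H) (ha : ∀ x y, a (y * x * y⁻¹) = a x) :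
    val (conv a b) ϑ = val a ϑ * val b ϑ := by
  obtain ⟨n, ρ, hρ, rfl⟩ := hϑ
  have h1 := act_mul ρ a b
  rw [act_val ρ hρ ha] at h1
  have h2 := congrArg (LinearMap.trace ℂ (Fin n → ℂ)) h1
  have h3 : (fun y => ∑ h, a h * b (h⁻¹ * y)) = conv a b := funext fun x => (conv_eq a b x).symm
  rw [h3, act_trace, smul_mul_assoc, map_smul] at h2
  have h4 : (LinearMap.id : (Fin n → ℂ) →ₗ[ℂ] (Fin n → ℂ)) * act ρ b = act ρ b := rfl
  rw [h4, act_trace, smul_eq_mul] at h2
  rw [val_eq (conv a b), ← h2, val_eq b]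
  ring

end val

section kill

variable {H : Type} [Group H] [Fintype H] {M : Ideal (integralClosure ℤ ℂ)}

/-- convolution on functions with values in a ring -/
def cv {F : Type*} [CommRing F] (a : H → F) : (H → F) →ₗ[F] (H → F) where
  toFun v x := ∑ y, a y * v (y⁻¹ * x)
  map_add' v w := by
    funext x
    simp only [Pi.add_apply, mul_add, Finset.sum_add_distrib]
  map_smul' c v := by
    funext x
    simp only [Pi.smul_apply, smul_eq_mul, RingHom.id_apply, Finset.mul_sum]
    apply Finset.sum_congr rfl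
    intro y _; ring

theorem cv_apply {F : Type*} [CommRing F] (a v : H → F) (x : H) :
    cv a v x = ∑ y, a y * v (y⁻¹ * x) := rfl

/-- left translation -/
def tl {F : Type*} [CommRing F] (d : H) : (H → F) →+ (H → F) where
  toFun v x := v (d⁻¹ * x)
  map_zero' := rfl
  map_add' _ _ := rfl

omit [Fintype H] in
theorem tl_apply {F : Type*} [CommRing F] (d : H) (v : H → F) (x : H) :
    tl d v x = v (d⁻¹ * x) := rfl

theorem tl_cv {F : Type*} [CommRing F] (a : H → F) (ha : ∀ x y, a (y * x * y⁻¹) = a x) (d : H)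
    (v : H → F) : tl d (cv a v) = cv a (tl d v) := by
  funext x
  rw [tl_apply, cv_apply, cv_apply]
  apply Fintype.sum_equiv (MulAut.conj d).toEquiv
  intro y
  show a y * v (y⁻¹ * (d⁻¹ * x)) = a (d * y * d⁻¹) * tl d v ((d * y * d⁻¹)⁻¹ * x)
  rw [ha, tl_apply]
  congr 2
  group

theorem tl_cv_pow {F : Type*} [CommRing F] (a : H → F) (ha : ∀ x y, a (y * x * y⁻¹) = a x)
    (d : H) (k : ℕ) (v : H → F) : tl d (((cv a) ^ k) v) = ((cv a) ^ k) (tl d v) := by
  induction k generalizing v with
  | zero => rfl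
  | succ k ih =>
    rw [pow_succ, Module.End.mul_apply, Module.End.mul_apply, ih, tl_cv a ha]

/-- the convolution operator of a class function with support off the centraliser of a normal
`ℓ`-subgroup is nilpotent in characteristic `ℓ` -/
theorem cv_nilpotent {F : Type*} [Field F] {ℓ : ℕ} [hp : Fact ℓ.Prime] (hF : (ℓ : F) = 0)
    {D : Subgroup H} (hn : D.Normal) (hD : IsPGroup ℓ D) (a : H → F)
    (ha : ∀ x y, a (y * x * y⁻¹) = a x) (h0 : ∀ y, (∀ d ∈ D, d * y = y * d) → a y = 0) :
    ∃ k, (cv a) ^ k = 0 := by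
  obtain ⟨n, hn'⟩ := Filter.eventually_atTop.1 (LinearMap.eventually_isCompl_ker_pow_range_pow
    (cv a : (H → F) →ₗ[F] (H → F)))
  refine ⟨n + 1, ?_⟩
  have hc := hn' (n + 1) (Nat.le_succ n)
  by_contra hne
  obtain ⟨u, hu⟩ : ∃ u, ((cv a) ^ (n + 1)) u ≠ 0 := by
    by_contra hcon
    push Not at hcon
    exact hne (LinearMap.ext hcon)
  set v := ((cv a) ^ (n + 1)) u with hv
  obtain ⟨w, hw, hw0, hfix⟩ := exists_fixed (V := H → F) hD (fun d : D => tl (d : H))
    (by
      intro v
      funext x
      rw [tl_apply, OneMemClass.coe_one, inv_one, one_mul])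
    (by
      intro d e v
      funext x
      rw [tl_apply, tl_apply, tl_apply, MulMemClass.coe_mul, mul_inv_rev, mul_assoc])
    (by
      intro v
      funext x
      rw [Pi.smul_apply, nsmul_eq_mul, hF, zero_mul]
      rfl) hu
  -- `w` lies in the range
  have hwr : w ∈ LinearMap.range ((cv a) ^ (n + 1)) := by
    have hle : AddSubgroup.closure (Set.range fun d : D => tl (d : H) v) ≤
        (LinearMap.range ((cv a) ^ (n + 1))).toAddSubgroup := by
      rw [AddSubgroup.closure_le]
      rintro _ ⟨e, rfl⟩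
      exact ⟨tl (e : H) u, (tl_cv_pow a ha _ _ _).symm⟩
    exact hle hw
  -- `w` is killed by the operator
  have hker : cv a w = 0 := by
    funext x
    rw [cv_apply]
    apply sum_fix hF hD (fun y => a y * w (y⁻¹ * x))
    · intro d hd y
      rw [ha]
      congr 1
      have e1 : (d * y * d⁻¹)⁻¹ * x = (d * (y⁻¹ * d⁻¹ * y) : H) * (y⁻¹ * x) := by group
      have m1 : d * (y⁻¹ * d⁻¹ * y) ∈ D := by
        have := hn.conj_mem _ (D.inv_mem hd) y⁻¹
        rw [inv_inv] at this
        exact D.mul_mem hd this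
      have h1 := congrFun (hfix ⟨_, D.inv_mem m1⟩) (y⁻¹ * x)
      rw [tl_apply] at h1
      rw [e1, ← h1]
      simp only [inv_inv]
    · intro y hy
      rw [h0 y hy, zero_mul]
  have hw1 : w ∈ LinearMap.ker ((cv a) ^ (n + 1)) := by
    rw [LinearMap.mem_ker, pow_succ, Module.End.mul_apply, hker, map_zero]
  exact hw0 (Submodule.disjoint_def.1 hc.disjoint w hw1 hwr)

open Classical in
/-- the iterated convolution powers -/
def pw (a : H → ℂ) : ℕ → H → ℂ
  | 0 => fun x => if x = 1 then 1 else 0
  | n + 1 => conv a (pw a n)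

omit [Fintype H] in
theorem pw_zero (a : H → ℂ) [DecidableEq H] (x : H) : pw a 0 x = if x = 1 then 1 else 0 := by
  by_cases h : x = 1
  · rw [if_pos h]; simp [pw, h]
  · rw [if_neg h]; simp [pw, h]

theorem pw_integral {a : H → ℂ} (ha : ∀ x, IsIntegral ℤ (a x)) (n : ℕ) (x : H) :
    IsIntegral ℤ (pw a n x) := by
  classical
  induction n generalizing x with
  | zero =>
    rw [pw_zero]
    split_ifs
    · exact isIntegral_one
    · exact isIntegral_zero
  | succ n ih => exact conv_integral ha ih x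

theorem pw_class {a : H → ℂ} (ha : ∀ x y, a (y * x * y⁻¹) = a x) (n : ℕ) (x y : H) :
    pw a n (y * x * y⁻¹) = pw a n x := by
  classical
  induction n generalizing x y with
  | zero =>
    rw [pw_zero, pw_zero]
    have : y * x * y⁻¹ = 1 ↔ x = 1 := by
      rw [mul_inv_eq_one]
      exact mul_eq_left
    simp only [this]
  | succ n ih => exact conv_class ha ih x y

theorem val_pw {ϑ a : H → ℂ} (hϑ : ϑ ∈ Irr H) (ha : ∀ x y, a (y * x * y⁻¹) = a x) (n : ℕ) :
    val (pw a n) ϑ = val a ϑ ^ n := by
  classical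
  induction n with
  | zero =>
    rw [val_eq, pow_zero]
    simp only [pw_zero, ite_mul, one_mul, zero_mul, Finset.sum_ite_eq', Finset.mem_univ, if_true]
    exact div_self (irr_one_ne hϑ)
  | succ n ih =>
    rw [pow_succ', ← ih]
    exact val_conv hϑ ha

theorem red_pw [hM : M.IsMaximal] {a : H → ℂ} (ha : ∀ x, IsIntegral ℤ (a x)) (n : ℕ) :
    (fun x => red M (pw a n x)) =
      ((cv (fun x => red M (a x))) ^ n) (fun x => red M (pw a 0 x)) := by
  induction n with
  | zero => rfl
  | succ n ih =>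
    rw [pow_succ', Module.End.mul_apply, ← ih]
    funext x
    rw [cv_apply]
    show red M (conv a (pw a n) x) = _
    rw [conv_eq, red_sum]
    · apply Finset.sum_congr rfl
      intro y _
      rw [red_mul (ha y) (pw_integral ha n _)]
    · intro y _
      exact (ha y).mul (pw_integral ha n _)

theorem cong_pow_zero [hM : M.IsMaximal] {c : ℂ} (hc : IsIntegral ℤ c) {k : ℕ}
    (h : Cong M (c ^ k) 0) : Cong M c 0 := by
  induction k with
  | zero =>
    rw [pow_zero] at h
    exact absurd h one_not_cong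
  | succ k ih =>
    rw [pow_succ] at h
    rcases cong_mul_zero (hc.pow k) hc h with h1 | h1
    · exact ih h1
    · exact h1

end kill

/-- module KILL -/
theorem kill : KillStmt := by
  intro ℓ hp M hM hℓ H _ _ D hn hD ϑ hϑ a ha hi h0
  classical
  have := Fintype.ofFinite H
  have hF : (ℓ : FF M) = 0 := by
    have : (Ideal.Quotient.mk M) (ℓ : integralClosure ℤ ℂ) = 0 := Ideal.Quotient.eq_zero_iff_mem.2 hℓ
    rwa [map_natCast] at this
  let _ : Field (FF M) := Ideal.Quotient.field M
  obtain ⟨k, hk⟩ := cv_nilpotent (F := FF M) hF hn hD (fun x => red M (a x))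
    (fun x y => by rw [ha]) (by
      intro y hy
      have : a y = 0 := by
        by_contra hne
        obtain ⟨d, hd, hdy⟩ := h0 y hne
        exact hdy (hy d hd)
      rw [this, red_zero])
  have h1 := red_pw (M := M) hi k
  have h2 : ∀ x, Cong M (pw a k x) 0 := by
    intro x
    rw [← red_eq_iff (pw_integral hi k x) isIntegral_zero, red_zero]
    have h3 := congrFun h1 x
    rw [hk] at h3
    exact h3
  apply cong_pow_zero (val_integral hϑ ha hi) (k := k)
  rw [← val_pw hϑ ha]
  have h4 := val_cong hϑ (pw_class ha k) (Ψ := fun _ => 0) (fun _ _ => rfl) h2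
  have h5 : val (fun _ : H => (0 : ℂ)) ϑ = 0 := by
    rw [val_eq]; simp
  rwa [h5] at h4

/-- module BR (the dependence on KILL is discharged) -/
theorem br : BrStmt := by
  intro ℓ hp M hM hℓ G _ _ H D hD hDH hHN hCH ϑ hϑ a b ha hai hb hbi
  classical
  have := Fintype.ofFinite G
  have := Fintype.ofFinite H
  set C : Subgroup G := Subgroup.centralizer (D : Set G) with hC
  have hCn : ∀ h ∈ H, ∀ x, x ∈ C ↔ h * x * h⁻¹ ∈ C := by
    intro h hh x
    have hN := Subgroup.mem_normalizer_iff.1 (hHN hh)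
    have hN' := Subgroup.mem_normalizer_iff.1 (hHN (H.inv_mem hh))
    rw [hC, Subgroup.mem_centralizer_iff, Subgroup.mem_centralizer_iff]
    constructor
    · intro hx d hd
      have h1 := hx (h⁻¹ * d * h) (by
        have := (hN' d).1 hd
        rwa [inv_inv] at this)
      calc d * (h * x * h⁻¹) = h * ((h⁻¹ * d * h) * x) * h⁻¹ := by group
        _ = h * (x * (h⁻¹ * d * h)) * h⁻¹ := by rw [h1]
        _ = h * x * h⁻¹ * d := by group
    · intro hx d hd
      have h1 := hx (h * d * h⁻¹) ((hN d).1 hd)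
      calc d * x = h⁻¹ * ((h * d * h⁻¹) * (h * x * h⁻¹)) * h := by group
        _ = h⁻¹ * ((h * x * h⁻¹) * (h * d * h⁻¹)) * h := by rw [h1]
        _ = x * d := by group
  -- the part on `C` of a class function of `G`
  let cut : (G → ℂ) → (H → ℂ) := fun f h => if (h : G) ∈ C then f h else 0
  have hcutc : ∀ f : G → ℂ, (∀ x y, f (y * x * y⁻¹) = f x) →
      ∀ x y : H, cut f (y * x * y⁻¹) = cut f x := by
    intro f hf x y
    show (if ((y * x * y⁻¹ : H) : G) ∈ C then f ((y * x * y⁻¹ : H) : G) else 0) =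
      if (x : G) ∈ C then f x else 0
    have e : ((y * x * y⁻¹ : H) : G) = y * x * (y : G)⁻¹ := rfl
    rw [e, hf]
    have := hCn y y.2 x
    simp only [← this]
  have hcuti : ∀ f : G → ℂ, (∀ x, IsIntegral ℤ (f x)) → ∀ x : H, IsIntegral ℤ (cut f x) := by
    intro f hf x
    show IsIntegral ℤ (if (x : G) ∈ C then f x else 0)
    split_ifs
    · exact hf _
    · exact isIntegral_zero
  -- only `C` matters
  have key : ∀ f : G → ℂ, (∀ x y, f (y * x * y⁻¹) = f x) → (∀ x, IsIntegral ℤ (f x)) →
      Cong M (val (fun h : H => f h) ϑ) (val (cut f) ϑ) := by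
    intro f hf hfi
    rw [cong_iff_sub]
    have h1 := kill ℓ M hℓ H (D.subgroupOf H) (by
      constructor
      intro d hd h
      rw [Subgroup.mem_subgroupOf] at hd ⊢
      exact (Subgroup.mem_normalizer_iff.1 (hHN h.2) _).1 hd) (hD.comap_subtype) ϑ hϑ
      (fun h => f h - cut f h) (by
      intro x y
      rw [hcutc f hf]
      congr 1
      exact hf _ _) (fun x => (hfi _).sub (hcuti f hfi x)) (by
      intro x hx
      by_contra hcon
      push Not at hcon
      apply hx
      have hxC : (x : G) ∈ C := by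
        rw [hC, Subgroup.mem_centralizer_iff]
        intro d hd
        exact congrArg Subtype.val (hcon ⟨d, hDH hd⟩ (by rw [Subgroup.mem_subgroupOf]; exact hd))
      show f x - (if (x : G) ∈ C then f x else 0) = 0
      rw [if_pos hxC, sub_self])
    have h2 : val (fun h : H => f h) ϑ - val (cut f) ϑ = val (fun h : H => f h - cut f h) ϑ := by
      rw [val_eq, val_eq, val_eq, ← sub_div, ← Finset.sum_sub_distrib]
      congr 1
      apply Finset.sum_congr rfl
      intro t _; ring
    rw [h2]
    exact h1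
  -- the convolution on `C`
  have hconv : ∀ x : H, Cong M (cut (conv a b) x) (conv (cut a) (cut b) x) := by
    intro x
    by_cases hx : (x : G) ∈ C
    · have e1 : cut (conv a b) x = ∑ y : G, a y * b (y⁻¹ * x) := by
        show (if (x : G) ∈ C then conv a b x else 0) = _
        rw [if_pos hx, conv_eq]
      have e2 : conv (cut a) (cut b) x = ∑ y : G, (if y ∈ C then a y * b (y⁻¹ * x) else 0) := by
        rw [conv_eq, ← Finset.sum_filter]
        have e3 : ∀ y : H, cut a y * cut b (y⁻¹ * x) =
            if (y : G) ∈ C then a y * b ((y : G)⁻¹ * x) else 0 := by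
          intro y
          show (if (y : G) ∈ C then a y else 0) *
            (if ((y⁻¹ * x : H) : G) ∈ C then b ((y⁻¹ * x : H) : G) else 0) = _
          have e4 : ((y⁻¹ * x : H) : G) = (y : G)⁻¹ * x := rfl
          rw [e4]
          by_cases hy : (y : G) ∈ C
          · rw [if_pos hy, if_pos hy, if_pos (C.mul_mem (C.inv_mem hy) hx)]
          · rw [if_neg hy, if_neg hy, zero_mul]
        simp_rw [e3]
        rw [← Finset.sum_filter]
        apply Finset.sum_bij (fun (y : H) _ => (y : G))
        · intro y hy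
          exact Finset.mem_filter.2 ⟨Finset.mem_univ _, (Finset.mem_filter.1 hy).2⟩
        · intro y _ z _ h; exact Subtype.ext h
        · intro y hy
          have hyC := (Finset.mem_filter.1 hy).2
          exact ⟨⟨y, hCH hyC⟩, Finset.mem_filter.2 ⟨Finset.mem_univ _, hyC⟩, rfl⟩
        · intro y _; rfl
      have hint : ∀ y : G, IsIntegral ℤ (if y ∈ C then (0 : ℂ) else a y * b (y⁻¹ * x)) := by
        intro y
        split_ifs
        · exact isIntegral_zero
        · exact (hai _).mul (hbi _)
      have e5 : cut (conv a b) x - conv (cut a) (cut b) x =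
          ∑ y : G, (if y ∈ C then (0 : ℂ) else a y * b (y⁻¹ * x)) := by
        rw [e1, e2, ← Finset.sum_sub_distrib]
        apply Finset.sum_congr rfl
        intro y _
        split_ifs
        · rw [sub_self]
        · rw [sub_zero]
      rw [cong_iff_sub, e5, ← red_eq_iff (IsIntegral.sum _ fun y _ => hint y) isIntegral_zero,
        red_zero, red_sum _ _ (fun y _ => hint y)]
      have hF : (ℓ : FF M) = 0 := by
        have : (Ideal.Quotient.mk M) (ℓ : integralClosure ℤ ℂ) = 0 :=
          Ideal.Quotient.eq_zero_iff_mem.2 hℓ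
        rwa [map_natCast] at this
      apply sum_fix hF hD (fun y => red M (if y ∈ C then (0 : ℂ) else a y * b (y⁻¹ * x)))
      · intro d hd y
        have h1 : d * y * d⁻¹ ∈ C ↔ y ∈ C := (hCn d (hDH hd) y).symm
        have h2 : (d * y * d⁻¹)⁻¹ * x = d * (y⁻¹ * x) * d⁻¹ := by
          have h3 := (Subgroup.mem_centralizer_iff.1 hx) d hd
          calc (d * y * d⁻¹)⁻¹ * x = d * y⁻¹ * d⁻¹ * x := by group
            _ = d * y⁻¹ * d⁻¹ * (x * d) * d⁻¹ := by group
            _ = d * y⁻¹ * d⁻¹ * (d * x) * d⁻¹ := by rw [h3]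
            _ = _ := by group
        rw [h2, ha, hb]
        simp only [h1]
      · intro y hy
        have : y ∈ C := by
          rw [hC, Subgroup.mem_centralizer_iff]
          exact hy
        simp only [if_pos this, red_zero]
    · have e1 : cut (conv a b) x = 0 := by
        show (if (x : G) ∈ C then conv a b x else 0) = _
        rw [if_neg hx]
      have e2 : conv (cut a) (cut b) x = 0 := by
        rw [conv_eq]
        apply Finset.sum_eq_zero
        intro y _
        show (if (y : G) ∈ C then a y else 0) *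
            (if ((y⁻¹ * x : H) : G) ∈ C then b ((y⁻¹ * x : H) : G) else 0) = _
        by_cases hy : (y : G) ∈ C
        · rw [if_neg (c := ((y⁻¹ * x : H) : G) ∈ C), mul_zero]
          intro h
          apply hx
          have := C.mul_mem hy h
          have e : (y : G) * ((y⁻¹ * x : H) : G) = x := by
            show (y : G) * ((y : G)⁻¹ * x) = x
            group
          rwa [e] at this
        · rw [if_neg hy, zero_mul]
      rw [e1, e2]
      exact Cong.refl _
  have hcc := fun x y => conv_class ha hb x y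
  have h1 := key (conv a b) hcc (conv_integral hai hbi)
  have h2 := val_cong hϑ (hcutc _ hcc) (conv_class (hcutc a ha) (hcutc b hb)) hconv
  rw [val_conv hϑ (hcutc a ha)] at h2
  have ia : IsIntegral ℤ (val (fun h : H => a h) ϑ) :=
    val_integral hϑ (fun x y => ha _ _) (fun x => hai _)
  have ib : IsIntegral ℤ (val (cut b) ϑ) := val_integral hϑ (hcutc b hb) (hcuti b hbi)
  have h3 := (key a ha hai).mul (key b hb hbi) ?_ ?_
  · exact h1.trans (h2.trans h3.symm)
  · exact val_integral hϑ (hcutc a ha) (hcuti a hai)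
  · exact val_integral hϑ (fun x y => hb _ _) (fun x => hbi _)

end Pool.Agent.Helper79_WRA.H44
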