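import Pool.Agent.Helper44_WRA.Schur

/-!
WRA, module CLIFF, part 2: matrices on subgroups, orthogonality and completeness on cosets.
-/

open scoped BigOperators
open Module

noncomputable section

namespace Pool.Agent.Helper79_WRA.H44

open Pool.Agent.Helper51_AWC

variable {Λ : Type} [Group Λ]

/-- a system of matrices on a subgroup whose traces are the values of `E` -/
structure MR (S : Subgroup Λ) (E : Λ → ℂ) where
  /-- the degree -/
  n : ℕ
  /-- the matrices -/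
  R : Λ → Matrix (Fin n) (Fin n) ℂ
  one : R 1 = 1
  mul : ∀ s ∈ S, ∀ t ∈ S, R (s * t) = R s * R t
  tr : ∀ s ∈ S, (R s).trace = E s

theorem exists_MR {S : Subgroup Λ} {E : Λ → ℂ} (h : E ∈ IrrS S) : Nonempty (MR S E) := by
  classical
  obtain ⟨n, R, hR⟩ := irr_matrix h.2
  refine ⟨⟨n, fun g => if hg : g ∈ S then R ⟨g, hg⟩ else 0, ?_, ?_, ?_⟩⟩
  · rw [dif_pos S.one_mem]
    exact map_one R
  · intro s hs t ht
    rw [dif_pos hs, dif_pos ht, dif_pos (S.mul_mem hs ht), ← map_mul]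
    rfl
  · intro s hs
    simp only [dif_pos hs]
    exact hR ⟨s, hs⟩

/-- restriction to a smaller subgroup -/
def MR.res {S Y : Subgroup Λ} {E : Λ → ℂ} (r : MR S E) (h : Y ≤ S) :
    Y →* Matrix (Fin r.n) (Fin r.n) ℂ where
  toFun y := r.R y
  map_one' := r.one
  map_mul' x y := r.mul _ (h x.2) _ (h y.2)

theorem MR.res_apply {S Y : Subgroup Λ} {E : Λ → ℂ} (r : MR S E) (h : Y ≤ S) (y : Y) :
    r.res h y = r.R y := rfl

theorem MR.res_trace {S Y : Subgroup Λ} {E : Λ → ℂ} (r : MR S E) (h : Y ≤ S) (y : Y) :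
    (r.res h y).trace = E y := r.tr _ (h y.2)

section

variable {S S' Y : Subgroup Λ} [Fintype Y] {E E' : Λ → ℂ}

theorem coset_zero (r : MR S E) (r' : MR S' E') (h : Y ≤ S) (h' : Y ≤ S')
    (h0 : ∑ y : Y, E y * E' (y : Λ)⁻¹ = 0) {t : Λ} (ht : t ∈ S) (ht' : t ∈ S') :
    ∑ y : Y, E (y * t) * E' (y * t)⁻¹ = 0 := by
  have h1 := tr_orth_zero (r.res h) (r'.res h') (by
    simp_rw [MR.res_trace]
    exact h0) (r.R t) (r'.R t⁻¹)
  rw [← h1]
  apply Finset.sum_congr rfl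
  intro y _
  rw [MR.res_apply, MR.res_apply, ← r.mul _ (h y.2) _ ht, r.tr _ (S.mul_mem (h y.2) ht),
    ← r'.mul _ (S'.inv_mem ht') _ (h' (y⁻¹).2), r'.tr _ (S'.mul_mem (S'.inv_mem ht') (h' (y⁻¹).2))]
  congr 2
  rw [mul_inv_rev]; rfl

theorem coset_one (r : MR S E) (h : Y ≤ S)
    (h0 : ∑ y : Y, E y * E (y : Λ)⁻¹ = Fintype.card Y) {t : Λ} (ht : t ∈ S) :
    ∑ y : Y, E (y * t) * E (y * t)⁻¹ = Fintype.card Y := by
  have h1 := tr_orth_one (r.res h) (by
    simp_rw [MR.res_trace]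
    exact h0) (r.R t) (r.R t⁻¹) (by
    rw [← r.mul _ ht _ (S.inv_mem ht), mul_inv_cancel, r.one])
  rw [← h1]
  apply Finset.sum_congr rfl
  intro y _
  rw [MR.res_apply, MR.res_apply, ← r.mul _ (h y.2) _ ht, r.tr _ (S.mul_mem (h y.2) ht),
    ← r.mul _ (S.inv_mem ht) _ (h (y⁻¹).2), r.tr _ (S.mul_mem (S.inv_mem ht) (h (y⁻¹).2))]
  congr 2
  rw [mul_inv_rev]; rfl

theorem coset_kill (hY : Y.Normal) (r : MR S E) (h : Y ≤ S)
    (h1 : ∑ y : Y, E y * E (y : Λ)⁻¹ = Fintype.card Y)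
    (hS : ∀ w, w ∉ S → ∑ y : Y, E (w * y * w⁻¹) * E (y : Λ)⁻¹ = 0)
    (F : Λ → ℂ) (hF : ∀ z ∈ Y, ∀ g, F (z * g * z⁻¹) = F g) (t : Λ)
    (h0 : t ∈ S → ∑ y : Y, F (y * t) * E (y * t)⁻¹ = 0) (x : Y) :
    ∑ y : Y, F (y * t) * E ((y : Λ)⁻¹ * x) = 0 := by
  classical
  set M : Matrix (Fin r.n) (Fin r.n) ℂ := ∑ y : Y, F (y * t) • r.R (y : Λ)⁻¹ with hM
  have hcn : ∀ (z : Y) (u : Λ), u * z * u⁻¹ ∈ Y := fun z u => hY.conj_mem _ z.2 u
  have key : ∀ z : Y, r.R (t * z * t⁻¹) * M = M * r.R z := by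
    intro z
    let c : Y := ⟨t * (z : Λ)⁻¹ * t⁻¹, hcn z⁻¹ t⟩
    rw [hM, Matrix.mul_sum, Matrix.sum_mul,
      ← Equiv.sum_comp ((Equiv.mulLeft z).trans (Equiv.mulRight c))
        (fun y : Y => F (y * t) • r.R (y : Λ)⁻¹ * r.R z)]
    apply Finset.sum_congr rfl
    intro y _
    have e1 : (((Equiv.mulLeft z).trans (Equiv.mulRight c)) y : Y) = z * y * c := rfl
    rw [e1]
    have e2 : ((z * y * c : Y) : Λ) * t = z * (y * t) * (z : Λ)⁻¹ := by
      show (z : Λ) * y * (t * (z : Λ)⁻¹ * t⁻¹) * t = _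
      group
    rw [e2, hF _ z.2, Matrix.mul_smul, Matrix.smul_mul]
    congr 1
    have e3 : ((z * y * c : Y) : Λ)⁻¹ = (t * z * t⁻¹) * ((y : Λ)⁻¹ * (z : Λ)⁻¹) := by
      show ((z : Λ) * y * (t * (z : Λ)⁻¹ * t⁻¹))⁻¹ = _
      group
    have m1 : (y : Λ)⁻¹ ∈ Y := (y⁻¹).2
    have m2 : (z : Λ)⁻¹ ∈ Y := (z⁻¹).2
    rw [e3, ← r.mul _ (h (hcn z t)) _ (h m1)]
    rw [← r.mul _ (h (Y.mul_mem (hcn z t) (Y.mul_mem m1 m2))) _ (h z.2)]
    congr 1
    show t * z * t⁻¹ * (y : Λ)⁻¹ = _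
    group
  have hM0 : M = 0 := by
    by_cases ht : t ∈ S
    · obtain ⟨hn, -⟩ := orth_one (r.res h) (by
        simp_rw [MR.res_trace]
        exact h1) 1
      obtain ⟨c, hc⟩ := schur_one (r.res h) (by
        simp_rw [MR.res_trace]
        exact h1) (r.R t⁻¹ * M) (by
        intro z
        rw [MR.res_apply, Matrix.mul_assoc, ← key z, ← Matrix.mul_assoc, ← Matrix.mul_assoc,
          ← r.mul _ (h z.2) _ (S.inv_mem ht), ← r.mul _ (S.inv_mem ht) _ (h (hcn z t))]
        congr 2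
        group)
      have h2 := congrArg Matrix.trace hc
      rw [hM, Matrix.mul_sum, Matrix.trace_sum, Matrix.trace_smul, Matrix.trace_one,
        Fintype.card_fin] at h2
      have h3 : ∑ y : Y, (r.R t⁻¹ * F (y * t) • r.R (y : Λ)⁻¹).trace = 0 := by
        rw [← h0 ht]
        apply Finset.sum_congr rfl
        intro y _
        have m1 : (y : Λ)⁻¹ ∈ Y := (y⁻¹).2
        rw [Matrix.mul_smul, Matrix.trace_smul, ← r.mul _ (S.inv_mem ht) _ (h m1),
          r.tr _ (S.mul_mem (S.inv_mem ht) (h m1)), smul_eq_mul, mul_inv_rev]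
      rw [h3, smul_eq_mul] at h2
      have hc0 : c = 0 := by
        rcases mul_eq_zero.1 h2.symm with h4 | h4
        · exact h4
        · exact absurd h4 hn
      rw [hc0, zero_smul] at hc
      have h5 : r.R t * (r.R t⁻¹ * M) = M := by
        rw [← Matrix.mul_assoc, ← r.mul _ ht _ (S.inv_mem ht), mul_inv_cancel, r.one,
          Matrix.one_mul]
      rw [← h5, hc, Matrix.mul_zero]
    · let P : Y →* Matrix (Fin r.n) (Fin r.n) ℂ :=
        { toFun := fun z => r.R (t * z * t⁻¹)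
          map_one' := by
            rw [OneMemClass.coe_one, mul_one, mul_inv_cancel]; exact r.one
          map_mul' := by
            intro z z'
            rw [← r.mul _ (h (hcn z t)) _ (h (hcn z' t))]
            congr 1
            rw [MulMemClass.coe_mul]
            group }
      apply schur_zero P (r.res h) ?_ M
      · intro z
        exact key z
      · rw [← hS t ht]
        apply Finset.sum_congr rfl
        intro y _
        rw [MR.res_trace]
        congr 1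
        exact r.tr _ (h (hcn y t))
  have h2 : (M * r.R x).trace = 0 := by rw [hM0, Matrix.zero_mul, Matrix.trace_zero]
  rw [hM, Matrix.sum_mul, Matrix.trace_sum] at h2
  rw [← h2]
  apply Finset.sum_congr rfl
  intro y _
  have m1 : (y : Λ)⁻¹ ∈ Y := (y⁻¹).2
  rw [Matrix.smul_mul, Matrix.trace_smul, ← r.mul _ (h m1) _ (h x.2),
    r.tr _ (S.mul_mem (h m1) (h x.2)), smul_eq_mul]

end

section sums

variable {K : Type} [Group K] (π : Λ →* K) [Fintype Λ] [Fintype K] [Fintype π.ker]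
  [DecidableEq K]

omit [Fintype K] in
theorem fiber_sum (h : Λ → ℂ) (t : Λ) :
    ∑ g, (if π g = π t then h g else 0) = ∑ y : π.ker, h (y * t) := by
  rw [← Finset.sum_filter]
  symm
  apply Finset.sum_bij (fun (y : π.ker) _ => (y : Λ) * t)
  · intro y _
    rw [Finset.mem_filter, map_mul, MonoidHom.mem_ker.1 y.2, one_mul]
    exact ⟨Finset.mem_univ _, rfl⟩
  · intro y _ z _ hyz
    exact Subtype.ext (mul_right_cancel hyz)
  · intro g hg
    rw [Finset.mem_filter] at hg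
    refine ⟨⟨g * t⁻¹, ?_⟩, Finset.mem_univ _, ?_⟩
    · rw [MonoidHom.mem_ker, map_mul, map_inv, hg.2, mul_inv_cancel]
    · show g * t⁻¹ * t = g
      group
  · intro y _; rfl

omit [Fintype π.ker] in
theorem sum_fib (h : Λ → ℂ) : ∑ g, h g = ∑ κ : K, ∑ g, (if π g = κ then h g else 0) := by
  rw [Finset.sum_comm]
  apply Finset.sum_congr rfl
  intro g _
  rw [Finset.sum_ite_eq, if_pos (Finset.mem_univ _)]

theorem fib (c : K → ℂ) (hc : ∀ κ, κ ∉ π.range → c κ = 0) :
    ∑ g, c (π g) = (Fintype.card π.ker : ℂ) * ∑ κ, c κ := by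
  rw [sum_fib π, Finset.mul_sum]
  apply Finset.sum_congr rfl
  intro κ _
  by_cases hκ : κ ∈ π.range
  · obtain ⟨t, rfl⟩ := hκ
    rw [fiber_sum π (fun g => c (π g)) t]
    have : ∀ y : π.ker, c (π (y * t)) = c (π t) := by
      intro y
      rw [map_mul, MonoidHom.mem_ker.1 y.2, one_mul]
    simp_rw [this]
    rw [Finset.sum_const, Finset.card_univ, nsmul_eq_mul]
  · rw [hc κ hκ, mul_zero]
    apply Finset.sum_eq_zero
    intro g _
    rw [if_neg]
    rintro rfl
    exact hκ ⟨g, rfl⟩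

omit [Fintype K] [DecidableEq K] in
/-- averaging over the cosets of the kernel -/
theorem avg (F : Λ → ℂ) :
    (Fintype.card π.ker : ℂ) * ∑ g, F g = ∑ g, ∑ y : π.ker, F (y * g) := by
  rw [Finset.sum_comm]
  have : ∀ y : π.ker, ∑ g, F (y * g) = ∑ g, F g := fun y => Equiv.sum_comp (Equiv.mulLeft (y : Λ)) F
  simp_rw [this]
  rw [Finset.sum_const, Finset.card_univ, nsmul_eq_mul]

end sums

/-- a class function with natural multiplicities and norm one is an irreducible character -/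
theorem mem_Irr_of_mult {G : Type} [Group G] [Fintype G] {f : G → ℂ}
    (hf : ∀ g h, f (h * g * h⁻¹) = f g)
    (hm : ∀ χ ∈ Irr G, ∃ m : ℕ, ∑ g, f g * χ g⁻¹ = m * Fintype.card G)
    (h : ∑ g, f g * f g⁻¹ = Fintype.card G) : f ∈ Irr G := by
  classical
  have hc' : (Fintype.card G : ℂ) ≠ 0 := by exact_mod_cast Fintype.card_ne_zero
  have := Fintype.ofFinite (Irr G)
  have hm' : ∀ χ : Irr G, ∃ m : ℕ, ∑ g, f g * (χ : G → ℂ) g⁻¹ = m * Fintype.card G :=
    fun χ => hm χ χ.2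
  choose m hm using hm'
  have hdec : f = ∑ χ : Irr G, (m χ : ℂ) • (χ : G → ℂ) := by
    have : f - ∑ χ : Irr G, (m χ : ℂ) • (χ : G → ℂ) = 0 := by
      apply irr_complete'
      · intro g h
        simp only [Pi.sub_apply, Finset.sum_apply, Pi.smul_apply, hf]
        congr 1
        apply Finset.sum_congr rfl
        intro χ _
        rw [irr_conj χ.2]
      · intro ψ hψ
        simp only [Pi.sub_apply, Finset.sum_apply, Pi.smul_apply, smul_eq_mul, sub_mul,
          Finset.sum_sub_distrib, Finset.sum_mul]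
        rw [hm ⟨ψ, hψ⟩, Finset.sum_comm, Finset.sum_eq_single_of_mem ⟨ψ, hψ⟩ (Finset.mem_univ _)]
        · simp_rw [mul_assoc]
          rw [← Finset.mul_sum, irr_orth_self hψ, sub_self]
        · intro χ _ hne
          simp_rw [mul_assoc]
          rw [← Finset.mul_sum, irr_orth_ne χ.2 hψ (fun h => hne (Subtype.ext h)), mul_zero]
    exact sub_eq_zero.1 this
  have hnorm : (∑ χ : Irr G, (m χ) ^ 2) = 1 := by
    have h2 : ∑ g, f g * f g⁻¹ =
        ((∑ χ : Irr G, (m χ) ^ 2 : ℕ) : ℂ) * Fintype.card G := by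
      have : ∀ g, f g * f g⁻¹ =
          ∑ χ : Irr G, (m χ : ℂ) * (f g * (χ : G → ℂ) g⁻¹) := by
        intro g
        conv_lhs => rw [show f g⁻¹ = ∑ χ : Irr G, (m χ : ℂ) * (χ : G → ℂ) g⁻¹ by
          conv_lhs => rw [hdec]
          simp]
        rw [Finset.mul_sum]
        apply Finset.sum_congr rfl
        intro χ _; ring
      simp_rw [this]
      rw [Finset.sum_comm]
      simp_rw [← Finset.mul_sum, hm]
      push_cast
      rw [Finset.sum_mul]
      apply Finset.sum_congr rfl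
      intro χ _; ring
    rw [h2] at h
    have h3 : ((∑ χ : Irr G, (m χ) ^ 2 : ℕ) : ℂ) = 1 :=
      mul_right_cancel₀ hc' (by rw [h, one_mul])
    exact_mod_cast h3
  obtain ⟨χ, hχ⟩ : ∃ χ : Irr G, m χ ≠ 0 := by
    by_contra hcon
    push Not at hcon
    simp [hcon] at hnorm
  have h1 : m χ ^ 2 ≤ 1 := by
    rw [← hnorm]
    exact Finset.single_le_sum (f := fun χ => m χ ^ 2) (fun _ _ => Nat.zero_le _)
      (Finset.mem_univ χ)
  have h1' : m χ = 1 := by
    have : m χ ≤ 1 := by nlinarith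
    omega
  have h2 : ∀ ψ : Irr G, ψ ≠ χ → m ψ = 0 := by
    intro ψ hne
    by_contra hψ
    have h3 : m χ ^ 2 + m ψ ^ 2 ≤ 1 := by
      rw [← hnorm]
      calc m χ ^ 2 + m ψ ^ 2 = ∑ x ∈ {χ, ψ}, m x ^ 2 := by
            rw [Finset.sum_pair (Ne.symm hne)]
        _ ≤ _ := Finset.sum_le_sum_of_subset (Finset.subset_univ _)
    have : 0 < m ψ := Nat.pos_of_ne_zero hψ
    nlinarith
  have h3 : f = χ := by
    rw [hdec, Finset.sum_eq_single_of_mem χ (Finset.mem_univ _)]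
    · rw [h1']; simp
    · intro ψ _ hne
      rw [h2 ψ hne]; simp
  rw [h3]; exact χ.2

/-- Parseval for a class function -/
theorem parseval {G : Type} [Group G] [Fintype G] [Fintype (Irr G)] {f : G → ℂ}
    (hf : ∀ g h, f (h * g * h⁻¹) = f g) :
    (Fintype.card G : ℂ) * ∑ g, f g * f g⁻¹ = ∑ χ : Irr G, (∑ g, f g * (χ : G → ℂ) g⁻¹) ^ 2 := by
  classical
  have hc' : (Fintype.card G : ℂ) ≠ 0 := by exact_mod_cast Fintype.card_ne_zero
  set m : Irr G → ℂ := fun χ => (∑ g, f g * (χ : G → ℂ) g⁻¹) / Fintype.card G with hm'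
  have hm : ∀ χ : Irr G, ∑ g, f g * (χ : G → ℂ) g⁻¹ = m χ * Fintype.card G := by
    intro χ
    rw [hm']
    field_simp
  have hdec : f = ∑ χ : Irr G, (m χ : ℂ) • (χ : G → ℂ) := by
    have : f - ∑ χ : Irr G, (m χ : ℂ) • (χ : G → ℂ) = 0 := by
      apply irr_complete'
      · intro g h
        simp only [Pi.sub_apply, Finset.sum_apply, Pi.smul_apply, hf]
        congr 1
        apply Finset.sum_congr rfl
        intro χ _
        rw [irr_conj χ.2]
      · intro ψ hψ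
        simp only [Pi.sub_apply, Finset.sum_apply, Pi.smul_apply, smul_eq_mul, sub_mul,
          Finset.sum_sub_distrib, Finset.sum_mul]
        rw [hm ⟨ψ, hψ⟩, Finset.sum_comm, Finset.sum_eq_single_of_mem ⟨ψ, hψ⟩ (Finset.mem_univ _)]
        · simp_rw [mul_assoc]
          rw [← Finset.mul_sum, irr_orth_self hψ, sub_self]
        · intro χ _ hne
          simp_rw [mul_assoc]
          rw [← Finset.mul_sum, irr_orth_ne χ.2 hψ (fun h => hne (Subtype.ext h)), mul_zero]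
    exact sub_eq_zero.1 this
  have h1 : ∀ g, f g * f g⁻¹ = ∑ χ : Irr G, (m χ : ℂ) * (f g * (χ : G → ℂ) g⁻¹) := by
    intro g
    conv_lhs => rw [show f g⁻¹ = ∑ χ : Irr G, (m χ : ℂ) * (χ : G → ℂ) g⁻¹ by
      conv_lhs => rw [hdec]
      simp]
    rw [Finset.mul_sum]
    apply Finset.sum_congr rfl
    intro χ _; ring
  simp_rw [h1]
  rw [Finset.sum_comm]
  simp_rw [← Finset.mul_sum, hm]
  rw [Finset.mul_sum]
  apply Finset.sum_congr rfl
  intro χ _
  ring

end Pool.Agent.Helper79_WRA.H44
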