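import Pool.Agent.Helper44_WRA.Coset

/-!
WRA, module CLIFF, part 3: the counting formula.
-/

open scoped BigOperators
open Module

noncomputable section

namespace Pool.Agent.Helper79_WRA.H44

open Pool.Agent.Helper51_AWC

/-! ### induction -/

section ind

variable {Λ : Type} [Group Λ] [Fintype Λ]

theorem ind_apply (T : Subgroup Λ) (η : Λ → ℂ) (g : Λ) :
    ind T η g = (∑ x : Λ, η (x * g * x⁻¹)) / (Nat.card T : ℂ) := by
  unfold ind
  rw [finsum_eq_sum_of_fintype]

theorem ind_class (T : Subgroup Λ) (η : Λ → ℂ) (g k : Λ) :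
    ind T η (k * g * k⁻¹) = ind T η g := by
  rw [ind_apply, ind_apply]
  congr 1
  rw [← Equiv.sum_comp (Equiv.mulRight k) (fun x => η (x * g * x⁻¹))]
  apply Finset.sum_congr rfl
  intro x _
  rw [Equiv.coe_mulRight]
  congr 1
  group

theorem ind_inner (T : Subgroup Λ) (η f : Λ → ℂ) (hf : ∀ g k, f (k * g * k⁻¹) = f g) :
    (Nat.card T : ℂ) * ∑ g, ind T η g * f g⁻¹ = (Fintype.card Λ : ℂ) * ∑ g, η g * f g⁻¹ := by
  have hT : (Nat.card T : ℂ) ≠ 0 := by exact_mod_cast Nat.card_pos.ne'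
  have h1 : ∀ g, (Nat.card T : ℂ) * (ind T η g * f g⁻¹) = ∑ x, η (x * g * x⁻¹) * f g⁻¹ := by
    intro g
    rw [ind_apply, ← Finset.sum_mul]
    field_simp
  rw [Finset.mul_sum]
  simp_rw [h1]
  rw [Finset.sum_comm]
  have h2 : ∀ x, ∑ g, η (x * g * x⁻¹) * f g⁻¹ = ∑ g, η g * f g⁻¹ := by
    intro x
    apply Fintype.sum_equiv (MulAut.conj x).toEquiv
    intro g
    show η (x * g * x⁻¹) * f g⁻¹ = η (x * g * x⁻¹) * f (x * g * x⁻¹)⁻¹
    congr 1
    rw [← hf g⁻¹ x]
    congr 1
    group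
  simp_rw [h2]
  rw [Finset.sum_const, Finset.card_univ, nsmul_eq_mul]

end ind

section main

variable {Λ K A : Type} [Group Λ] [Fintype Λ] [Group K] [Fintype K] [Fintype A] [DecidableEq K]
  (π : Λ →* K) [Fintype π.ker] (ν X : A → Λ → ℂ) (T : A → Subgroup Λ)

/-- the standing hypotheses -/
structure Hyp : Prop where
  h1 : ∀ a, ν a ∈ IrrS π.ker
  h2 : Function.Injective ν
  h3 : ∀ η ∈ IrrS π.ker, ∃ a, ν a = η
  h4 : ∀ a t, t ∈ T a ↔ ∀ y, ν a (t * y * t⁻¹) = ν a y
  h5 : ∀ a, X a ∈ IrrS (T a)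
  h6 : ∀ a, ∀ y ∈ π.ker, X a y = ν a y

variable {π ν X T}

namespace Hyp

variable (H : Hyp π ν X T)
include H

omit [Fintype Λ] [Fintype K] [Fintype A] [DecidableEq K] [Fintype π.ker] in
theorem ker_le (a : A) : π.ker ≤ T a := by
  intro t ht
  rw [H.h4]
  intro y
  by_cases hy : y ∈ π.ker
  · exact irr_conj (H.h1 a).2 ⟨y, hy⟩ ⟨t, ht⟩
  · rw [(H.h1 a).1 y hy, (H.h1 a).1]
    intro h
    apply hy
    have := π.normal_ker.conj_mem _ h t⁻¹
    have e : t⁻¹ * (t * y * t⁻¹) * t⁻¹⁻¹ = y := by group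
    rwa [e] at this

omit [Fintype Λ] [Fintype K] [Fintype A] [DecidableEq K] [Fintype π.ker] in
theorem X_conj (a : A) {s : Λ} (hs : s ∈ T a) (g : Λ) : X a (s * g * s⁻¹) = X a g := by
  by_cases hg : g ∈ T a
  · exact irr_conj (H.h5 a).2 ⟨g, hg⟩ ⟨s, hs⟩
  · rw [(H.h5 a).1 g hg, (H.h5 a).1]
    intro h
    apply hg
    have := (T a).mul_mem ((T a).mul_mem ((T a).inv_mem hs) h) hs
    have e : s⁻¹ * (s * g * s⁻¹) * s = g := by group
    rwa [e] at this

omit [Fintype Λ] [Fintype K] [Fintype A] [DecidableEq K] in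
theorem norm_one (a : A) :
    ∑ y : π.ker, X a y * X a (y : Λ)⁻¹ = Fintype.card π.ker := by
  rw [← irr_orth_self (H.h1 a).2]
  apply Finset.sum_congr rfl
  intro y _
  rw [H.h6 a _ y.2, H.h6 a _ (π.ker.inv_mem y.2)]
  rfl

omit [Fintype Λ] [Fintype K] [Fintype A] [DecidableEq K] in
theorem norm_zero {a b : A} (hab : a ≠ b) :
    ∑ y : π.ker, X a y * X b (y : Λ)⁻¹ = 0 := by
  rw [← irr_orth_ne (H.h1 a).2 (H.h1 b).2 (by
    intro h
    apply hab
    apply H.h2
    exact IrrS_ext (H.h1 a) (H.h1 b) (fun x => congrFun h x))]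
  apply Finset.sum_congr rfl
  intro y _
  rw [H.h6 a _ y.2, H.h6 b _ (π.ker.inv_mem y.2)]
  rfl

omit [Fintype Λ] [Fintype K] [Fintype A] [DecidableEq K] [Fintype π.ker] in
theorem nu_conj (a : A) (w : Λ) : (fun y : π.ker => ν a (w * y * w⁻¹)) ∈ Irr π.ker := by
  have := irr_comp_equiv (MulAut.conjNormal w : π.ker ≃* π.ker) (H.h1 a).2
  convert this using 2
  rw [MulAut.conjNormal_apply]

omit [Fintype Λ] [Fintype K] [Fintype A] [DecidableEq K] in
theorem norm_conj (a : A) {w : Λ} (hw : w ∉ T a) :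
    ∑ y : π.ker, X a (w * y * w⁻¹) * X a (y : Λ)⁻¹ = 0 := by
  rw [← irr_orth_ne (H.nu_conj a w) (H.h1 a).2 (by
    intro h
    apply hw
    rw [H.h4]
    intro y
    by_cases hy : y ∈ π.ker
    · exact congrFun h ⟨y, hy⟩
    · rw [(H.h1 a).1 y hy, (H.h1 a).1]
      intro h
      apply hy
      have := π.normal_ker.conj_mem _ h w⁻¹
      have e : w⁻¹ * (w * y * w⁻¹) * w⁻¹⁻¹ = y := by group
      rwa [e] at this)]
  apply Finset.sum_congr rfl
  intro y _
  rw [H.h6 a _ (π.normal_ker.conj_mem _ y.2 w), H.h6 a _ (π.ker.inv_mem y.2)]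
  rfl

omit [Fintype Λ] [Fintype K] [Fintype A] [DecidableEq K] [Fintype π.ker] in
theorem X_off (a : A) {t : Λ} (ht : t ∉ T a) (y : π.ker) : X a (y * t) = 0 := by
  apply (H.h5 a).1
  intro h
  apply ht
  have := (T a).mul_mem ((T a).inv_mem (H.ker_le a y.2)) h
  rwa [inv_mul_cancel_left] at this

omit [Fintype Λ] [Fintype K] [Fintype A] [DecidableEq K] [Fintype π.ker] in
theorem X_off' (a : A) {t : Λ} (ht : t ∉ T a) (y : π.ker) : X a (y * t)⁻¹ = 0 := by
  apply (H.h5 a).1
  intro h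
  apply ht
  have h' := (T a).inv_mem h
  rw [inv_inv] at h'
  have := (T a).mul_mem ((T a).inv_mem (H.ker_le a y.2)) h'
  rwa [inv_mul_cancel_left] at this

omit [Fintype Λ] [Fintype K] [Fintype A] [DecidableEq K] in
/-- orthogonality on a coset -/
theorem coset_eq (a : A) (t : Λ) [Decidable (t ∈ T a)] :
    ∑ y : π.ker, X a (y * t) * X a (y * t)⁻¹ =
      if t ∈ T a then (Fintype.card π.ker : ℂ) else 0 := by
  split_ifs with ht
  · obtain ⟨r⟩ := exists_MR (H.h5 a)
    exact coset_one r (H.ker_le a) (H.norm_one a) ht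
  · apply Finset.sum_eq_zero
    intro y _
    rw [H.X_off a ht, zero_mul]

omit [Fintype Λ] [Fintype K] [Fintype A] [DecidableEq K] in
theorem coset_ne {a b : A} (hab : a ≠ b) (t : Λ) :
    ∑ y : π.ker, X a (y * t) * X b (y * t)⁻¹ = 0 := by
  by_cases ha : t ∈ T a
  · by_cases hb : t ∈ T b
    · obtain ⟨r⟩ := exists_MR (H.h5 a)
      obtain ⟨r'⟩ := exists_MR (H.h5 b)
      exact coset_zero r r' (H.ker_le a) (H.ker_le b) (H.norm_zero hab) ha hb
    · apply Finset.sum_eq_zero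
      intro y _
      rw [H.X_off' b hb, mul_zero]
  · apply Finset.sum_eq_zero
    intro y _
    rw [H.X_off a ha, zero_mul]

omit [Fintype Λ] [Fintype K] [Fintype A] [DecidableEq K] in
theorem coset_conj (a : A) {w : Λ} (hw : w ∉ T a) (t : Λ) :
    ∑ y : π.ker, X a (y * t) * X a (w * (y * t)⁻¹ * w⁻¹) = 0 := by
  by_cases ht : t ∈ T a
  · by_cases ht' : w * t * w⁻¹ ∈ T a
    · obtain ⟨r⟩ := exists_MR (H.h5 a)
      -- the conjugate system
      let S' : Subgroup Λ := (T a).comap (MulAut.conj w).toMonoidHom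
      have hS' : ∀ s, s ∈ S' ↔ w * s * w⁻¹ ∈ T a := fun s => Iff.rfl
      let r' : MR S' (fun t => X a (w * t * w⁻¹)) :=
        { n := r.n
          R := fun t => r.R (w * t * w⁻¹)
          one := by
            rw [mul_one, mul_inv_cancel]; exact r.one
          mul := by
            intro s hs t ht
            rw [← r.mul (w * s * w⁻¹) hs (w * t * w⁻¹) ht]
            congr 1
            group
          tr := fun s hs => r.tr _ hs }
      have hY' : π.ker ≤ S' := fun y hy => H.ker_le a (π.normal_ker.conj_mem _ hy w)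
      have h0 : ∑ y : π.ker, (fun t => X a (w * t * w⁻¹)) (y : Λ) * X a (y : Λ)⁻¹ = 0 :=
        H.norm_conj a hw
      have h00 : ∑ y : π.ker, X a y * (fun t => X a (w * t * w⁻¹)) (y : Λ)⁻¹ = 0 := by
        rw [← h0, ← Equiv.sum_comp (Equiv.inv π.ker)]
        apply Finset.sum_congr rfl
        intro y _
        simp only [Equiv.inv_apply, InvMemClass.coe_inv, inv_inv]
        ring
      exact coset_zero r r' (H.ker_le a) hY' h00 ht ht'
    · apply Finset.sum_eq_zero
      intro y _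
      rw [(H.h5 a).1 (w * (y * t)⁻¹ * w⁻¹), mul_zero]
      intro h
      apply ht'
      have h2 := (T a).inv_mem h
      have m1 : w * (y : Λ) * w⁻¹ ∈ T a := H.ker_le a (π.normal_ker.conj_mem _ y.2 w)
      have := (T a).mul_mem ((T a).inv_mem m1) h2
      have e : (w * (y : Λ) * w⁻¹)⁻¹ * (w * (y * t)⁻¹ * w⁻¹)⁻¹ = w * t * w⁻¹ := by group
      rwa [e] at this
  · apply Finset.sum_eq_zero
    intro y _
    rw [H.X_off a ht, zero_mul]

/-! ### the induced characters -/

omit [Fintype Λ] [Fintype K] [Fintype A] [DecidableEq K] [Fintype π.ker] H in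
theorem lam_class {L : Subgroup K} {lam : K → ℂ} (hl : lam ∈ IrrS L) {s : K} (hs : s ∈ L)
    (k : K) : lam (s * k * s⁻¹) = lam k := by
  by_cases hk : k ∈ L
  · exact irr_conj hl.2 ⟨k, hk⟩ ⟨s, hs⟩
  · rw [hl.1 k hk, hl.1]
    intro h
    apply hk
    have := L.mul_mem (L.mul_mem (L.inv_mem hs) h) hs
    have e : s⁻¹ * (s * k * s⁻¹) * s = k := by group
    rwa [e] at this

omit [Fintype Λ] [Fintype K] [Fintype A] [DecidableEq K] [Fintype π.ker] in
theorem mem_of_map {a : A} {t : Λ} (h : π t ∈ (T a).map π) : t ∈ T a := by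
  obtain ⟨s, hs, hst⟩ := h
  have : t * s⁻¹ ∈ π.ker := by
    rw [MonoidHom.mem_ker, map_mul, map_inv, ← hst, mul_inv_cancel]
  have := (T a).mul_mem (H.ker_le a this) hs
  rwa [inv_mul_cancel_right] at this

omit [Fintype A] [DecidableEq K] in
theorem card_T (a : A) : (Nat.card (T a) : ℂ) =
    (Fintype.card π.ker : ℂ) * (Nat.card ((T a).map π) : ℂ) := by
  classical
  have h := fib π (fun κ => if κ ∈ (T a).map π then (1 : ℂ) else 0) (by
    intro κ hκ
    rw [if_neg]
    rintro ⟨s, _, rfl⟩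
    exact hκ ⟨s, rfl⟩)
  have e1 : ∑ g, (if π g ∈ (T a).map π then (1 : ℂ) else 0) = (Nat.card (T a) : ℂ) := by
    rw [Finset.sum_ite, Finset.sum_const_zero, add_zero, Finset.sum_const, nsmul_eq_mul, mul_one]
    congr 1
    rw [Nat.card_eq_fintype_card, Fintype.card_subtype]
    congr 1
    ext t
    simp only [Finset.mem_filter, Finset.mem_univ, true_and]
    exact ⟨fun h => H.mem_of_map h, fun h => ⟨t, h, rfl⟩⟩
  have e2 : ∑ κ : K, (if κ ∈ (T a).map π then (1 : ℂ) else 0) =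
      (Nat.card ((T a).map π) : ℂ) := by
    rw [Finset.sum_ite, Finset.sum_const_zero, add_zero, Finset.sum_const, nsmul_eq_mul, mul_one]
    congr 1
    rw [Nat.card_eq_fintype_card, Fintype.card_subtype]
  rw [← e1, h, e2]

omit [Fintype A] in
/-- the norm of `X a * (lam ∘ π)`, twisted by conjugation -/
theorem J (a : A) {lam : K → ℂ} (hl : lam ∈ IrrS ((T a).map π)) (w : Λ)
    [Decidable (w ∈ T a)] :
    ∑ g, (X a g * lam (π g)) * (X a (w * g⁻¹ * w⁻¹) * lam (π (w * g⁻¹ * w⁻¹))) =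
      if w ∈ T a then (Nat.card (T a) : ℂ) else 0 := by
  classical
  have hY : (Fintype.card π.ker : ℂ) ≠ 0 := by exact_mod_cast Fintype.card_ne_zero
  apply mul_left_cancel₀ hY
  rw [avg π]
  have h1 : ∀ g, ∑ y : π.ker, (X a (y * g) * lam (π (y * g))) *
      (X a (w * (y * g)⁻¹ * w⁻¹) * lam (π (w * (y * g)⁻¹ * w⁻¹))) =
      lam (π g) * lam (π (w * g⁻¹ * w⁻¹)) *
        ∑ y : π.ker, X a (y * g) * X a (w * (y * g)⁻¹ * w⁻¹) := by
    intro g
    rw [Finset.mul_sum]
    apply Finset.sum_congr rfl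
    intro y _
    have e1 : π (y * g) = π g := by rw [map_mul, MonoidHom.mem_ker.1 y.2, one_mul]
    have e2 : π (w * (y * g)⁻¹ * w⁻¹) = π (w * g⁻¹ * w⁻¹) := by
      rw [map_mul, map_mul, map_inv π (y * g), e1, map_mul, map_mul, map_inv π g]
    rw [e1, e2]
    ring
  simp_rw [h1]
  split_ifs with hw
  · have h2 : ∀ g, lam (π g) * lam (π (w * g⁻¹ * w⁻¹)) *
        ∑ y : π.ker, X a (y * g) * X a (w * (y * g)⁻¹ * w⁻¹) =
        (Fintype.card π.ker : ℂ) * (lam (π g) * lam (π g)⁻¹) := by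
      intro g
      simp_rw [H.X_conj a hw]
      rw [H.coset_eq a g]
      have e3 : lam (π (w * g⁻¹ * w⁻¹)) = lam (π g)⁻¹ := by
        rw [map_mul, map_mul, map_inv π w, map_inv π g]
        exact lam_class hl ⟨w, hw, rfl⟩ _
      rw [e3]
      split_ifs with hg
      · ring
      · rw [hl.1 (π g) (fun h => hg (H.mem_of_map h))]
        ring
    simp_rw [h2, ← Finset.mul_sum]
    congr 1
    rw [fib π (fun κ => lam κ * lam κ⁻¹) (by
      intro κ hκ
      rw [hl.1 κ, zero_mul]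
      rintro ⟨s, _, rfl⟩
      exact hκ ⟨s, rfl⟩), H.card_T a]
    congr 1
    have h3 := irr_orth_self hl.2
    rw [← Nat.card_eq_fintype_card] at h3
    rw [← h3]
    have h4 : ∑ κ : K, lam κ * lam κ⁻¹ =
        ∑ κ ∈ Finset.univ.filter (fun κ => κ ∈ (T a).map π), lam κ * lam κ⁻¹ := by
      symm
      apply Finset.sum_subset (Finset.subset_univ _)
      intro κ _ hκ
      rw [hl.1 κ, zero_mul]
      intro h
      exact hκ (Finset.mem_filter.2 ⟨Finset.mem_univ _, h⟩)
    rw [h4]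
    symm
    apply Finset.sum_bij (fun (x : (T a).map π) _ => (x : K))
    · intro x _
      exact Finset.mem_filter.2 ⟨Finset.mem_univ _, x.2⟩
    · intro x _ y _ h; exact Subtype.ext h
    · intro κ hκ
      exact ⟨⟨κ, (Finset.mem_filter.1 hκ).2⟩, Finset.mem_univ _, rfl⟩
    · intro x _; rfl
  · rw [mul_zero]
    apply Finset.sum_eq_zero
    intro g _
    rw [H.coset_conj a hw, mul_zero]

/-- the induced function -/
def Th (π : Λ →* K) (X : A → Λ → ℂ) (T : A → Subgroup Λ) (a : A) (lam : K → ℂ) : Λ → ℂ :=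
  ind (T a) (fun t => X a t * lam (π t))

omit [Fintype A] [DecidableEq K] [Fintype π.ker] in
theorem mult (a : A) {lam : K → ℂ} (hl : lam ∈ IrrS ((T a).map π)) {θ : Λ → ℂ}
    (hθ : θ ∈ Irr Λ) :
    ∃ m : ℕ, ∑ g, (X a g * lam (π g)) * θ g⁻¹ = m * (Nat.card (T a) : ℂ) := by
  classical
  obtain ⟨n, ρ, _, hρ⟩ := (H.h5 a).2
  obtain ⟨k, σ, _, hσ⟩ := hl.2
  obtain ⟨p, κ, _, hκ⟩ := hθ
  have hc : (Nat.card (T a) : ℂ) ≠ 0 := by exact_mod_cast Nat.card_pos.ne'
  have hinv := invertibleOfNonzero hc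
  have hft := Fintype.ofFinite (T a)
  have h := Representation.card_inv_mul_sum_char_mul_char_eq_finrank
    (κ.comp (T a).subtype) (Representation.tprod ρ (σ.comp (π.subgroupMap (T a))))
  obtain ⟨m, hm⟩ : ∃ m : ℕ, (finrank ℂ (Representation.IntertwiningMap (κ.comp (T a).subtype)
    (Representation.tprod ρ (σ.comp (π.subgroupMap (T a))))) : ℂ) = (m : ℂ) := ⟨_, rfl⟩
  refine ⟨m, ?_⟩
  rw [← hm, ← h, mul_comm, ← mul_assoc, mul_inv_cancel₀ hc, one_mul]
  have h1 : ∑ g, (X a g * lam (π g)) * θ g⁻¹ =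
      ∑ g ∈ Finset.univ.filter (fun g => g ∈ T a), (X a g * lam (π g)) * θ g⁻¹ := by
    symm
    apply Finset.sum_subset (Finset.subset_univ _)
    intro g _ hg
    rw [(H.h5 a).1 g, zero_mul, zero_mul]
    intro h
    exact hg (Finset.mem_filter.2 ⟨Finset.mem_univ _, h⟩)
  rw [h1]
  symm
  apply Finset.sum_bij (fun (x : T a) _ => (x : Λ))
  · intro x _
    exact Finset.mem_filter.2 ⟨Finset.mem_univ _, x.2⟩
  · intro x _ y _ h; exact Subtype.ext h
  · intro g hg
    exact ⟨⟨g, (Finset.mem_filter.1 hg).2⟩, Finset.mem_univ _, rfl⟩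
  · intro x _
    rw [Representation.char_tensor, Pi.mul_apply]
    have e1 : ρ.character x = X a x := congrFun hρ x
    have e2 : (Representation.character (σ.comp (π.subgroupMap (T a)))) x = lam (π x) :=
      congrFun hσ (π.subgroupMap (T a) x)
    have e3 : (Representation.character (κ.comp (T a).subtype)) x⁻¹ = θ (x : Λ)⁻¹ :=
      congrFun hκ ((x : Λ)⁻¹)
    rw [e1, e2, e3]

omit [Fintype A] in
theorem Th_mem (a : A) {lam : K → ℂ} (hl : lam ∈ IrrS ((T a).map π)) :
    Th π X T a lam ∈ Irr Λ := by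
  classical
  have hT : (Nat.card (T a) : ℂ) ≠ 0 := by exact_mod_cast Nat.card_pos.ne'
  apply mem_Irr_of_mult
  · intro g k
    exact ind_class _ _ _ _
  · intro θ hθ
    obtain ⟨m, hm⟩ := H.mult a hl hθ
    refine ⟨m, ?_⟩
    apply mul_left_cancel₀ hT
    have := ind_inner (T a) (fun t => X a t * lam (π t)) θ (fun g k => irr_conj hθ g k)
    unfold Th
    rw [this, hm]
    ring
  · apply mul_left_cancel₀ (mul_ne_zero hT hT)
    have h1 := ind_inner (T a) (fun t => X a t * lam (π t)) (Th π X T a lam)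
      (fun g k => ind_class _ _ _ _)
    have h2 : (Nat.card (T a) : ℂ) * ∑ g, (X a g * lam (π g)) * Th π X T a lam g⁻¹ =
        (Nat.card (T a) : ℂ) * (Nat.card (T a) : ℂ) := by
      have e1 : ∀ g, (Nat.card (T a) : ℂ) * ((X a g * lam (π g)) * Th π X T a lam g⁻¹) =
          ∑ x, (X a g * lam (π g)) * (X a (x * g⁻¹ * x⁻¹) * lam (π (x * g⁻¹ * x⁻¹))) := by
        intro g
        unfold Th
        rw [ind_apply, ← Finset.mul_sum]
        field_simp
      rw [Finset.mul_sum]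
      simp_rw [e1]
      rw [Finset.sum_comm]
      simp_rw [H.J a hl]
      rw [Finset.sum_ite, Finset.sum_const_zero, add_zero, Finset.sum_const, nsmul_eq_mul]
      congr 2
      rw [Nat.card_eq_fintype_card, Fintype.card_subtype]
    calc (Nat.card (T a) : ℂ) * (Nat.card (T a) : ℂ) * ∑ g, Th π X T a lam g * Th π X T a lam g⁻¹
        = (Nat.card (T a) : ℂ) * ((Nat.card (T a) : ℂ) *
            ∑ g, Th π X T a lam g * Th π X T a lam g⁻¹) := by ring
      _ = (Nat.card (T a) : ℂ) * ((Fintype.card Λ : ℂ) *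
            ∑ g, (X a g * lam (π g)) * Th π X T a lam g⁻¹) := by
          rw [← h1]; rfl
      _ = (Fintype.card Λ : ℂ) * ((Nat.card (T a) : ℂ) *
            ∑ g, (X a g * lam (π g)) * Th π X T a lam g⁻¹) := by ring
      _ = _ := by rw [h2]; ring

/-! ### completeness -/

/-- the coefficient functions of a class function -/
def ph (π : Λ →* K) [Fintype π.ker] (X : A → Λ → ℂ) (θ : Λ → ℂ) (a : A) (κ : K) : ℂ :=
  (∑ g, (if π g = κ then θ g * X a g⁻¹ else 0)) / Fintype.card π.ker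

omit [Fintype K] [Fintype A] H in
theorem ph_eq (θ : Λ → ℂ) (a : A) (t : Λ) :
    ∑ y : π.ker, θ (y * t) * X a (y * t)⁻¹ = (Fintype.card π.ker : ℂ) * ph π X θ a (π t) := by
  have hY : (Fintype.card π.ker : ℂ) ≠ 0 := by exact_mod_cast Fintype.card_ne_zero
  unfold ph
  rw [fiber_sum π (fun g => θ g * X a g⁻¹) t]
  field_simp

omit [Fintype K] [Fintype A] in
theorem ph_off (θ : Λ → ℂ) (a : A) {κ : K} (hκ : κ ∉ (T a).map π) : ph π X θ a κ = 0 := by
  unfold ph
  rw [Finset.sum_eq_zero, zero_div]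
  intro g _
  split_ifs with hg
  · rw [(H.h5 a).1 g⁻¹, mul_zero]
    intro h
    apply hκ
    have := (T a).inv_mem h
    rw [inv_inv] at this
    exact ⟨g, this, hg⟩
  · rfl

omit [Fintype K] [Fintype A] in
theorem ph_class {θ : Λ → ℂ} (hθ : θ ∈ Irr Λ) (a : A) {s : Λ} (hs : s ∈ T a) (κ : K) :
    ph π X θ a (π s * κ * (π s)⁻¹) = ph π X θ a κ := by
  unfold ph
  congr 1
  symm
  apply Fintype.sum_equiv (MulAut.conj s).toEquiv
  intro g
  show _ = if π (s * g * s⁻¹) = _ then θ (s * g * s⁻¹) * X a (s * g * s⁻¹)⁻¹ else 0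
  have e1 : (s * g * s⁻¹)⁻¹ = s * g⁻¹ * s⁻¹ := by group
  rw [irr_conj hθ, e1, H.X_conj a hs]
  have e2 : π (s * g * s⁻¹) = π s * κ * (π s)⁻¹ ↔ π g = κ := by
    rw [map_mul, map_mul, map_inv]
    constructor
    · intro h
      exact mul_left_cancel (mul_right_cancel h)
    · rintro rfl; rfl
  simp only [e2]

theorem expand {θ : Λ → ℂ} (hθ : θ ∈ Irr Λ) (g : Λ) :
    θ g = ∑ a, ph π X θ a (π g) * X a g := by
  classical
  have hY : (Fintype.card π.ker : ℂ) ≠ 0 := by exact_mod_cast Fintype.card_ne_zero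
  set F : Λ → ℂ := fun g => θ g - ∑ a, ph π X θ a (π g) * X a g with hF
  have hker : ∀ (y : π.ker) (t : Λ), π (y * t) = π t := by
    intro y t
    rw [map_mul, MonoidHom.mem_ker.1 y.2, one_mul]
  have hFc : ∀ z ∈ π.ker, ∀ g, F (z * g * z⁻¹) = F g := by
    intro z hz g
    rw [hF]
    simp only
    rw [irr_conj hθ]
    congr 1
    apply Finset.sum_congr rfl
    intro a _
    rw [H.X_conj a (H.ker_le a hz), map_mul, map_mul, map_inv, MonoidHom.mem_ker.1 hz, inv_one,
      one_mul, mul_one]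
  have hF0 : ∀ b t, ∑ y : π.ker, F (y * t) * X b (y * t)⁻¹ = 0 := by
    intro b t
    have e1 : ∀ y : π.ker, F (y * t) * X b (y * t)⁻¹ = θ (y * t) * X b (y * t)⁻¹ -
        ∑ a, ph π X θ a (π t) * (X a (y * t) * X b (y * t)⁻¹) := by
      intro y
      rw [hF]
      simp only
      rw [sub_mul, Finset.sum_mul]
      congr 1
      apply Finset.sum_congr rfl
      intro a _
      rw [hker]
      ring
    simp_rw [e1]
    rw [Finset.sum_sub_distrib, ph_eq, Finset.sum_comm]
    simp_rw [← Finset.mul_sum]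
    rw [Finset.sum_eq_single_of_mem b (Finset.mem_univ _)]
    · rw [H.coset_eq b t]
      split_ifs with ht
      · ring
      · rw [H.ph_off θ b (fun h => ht (H.mem_of_map h))]
        ring
    · intro a _ hab
      rw [H.coset_ne hab, mul_zero]
  have hall : ∀ t, (fun y : π.ker => F (y * t)) = 0 := by
    intro t
    apply complete_translates
    intro χ hχ x
    obtain ⟨η, hη, hηχ⟩ := exists_IrrS π.ker hχ
    obtain ⟨b, rfl⟩ := H.h3 η hη
    obtain ⟨r⟩ := exists_MR (H.h5 b)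
    have := coset_kill π.normal_ker r (H.ker_le b) (H.norm_one b) (fun w hw => H.norm_conj b hw)
      F hFc t (fun _ => hF0 b t) x
    rw [← this]
    apply Finset.sum_congr rfl
    intro y _
    congr 1
    rw [← hηχ, H.h6 b _ (π.ker.mul_mem (π.ker.inv_mem y.2) x.2)]
    rfl
  have := congrFun (hall g) 1
  simp only [OneMemClass.coe_one, one_mul, Pi.zero_apply] at this
  exact sub_eq_zero.1 this

omit [Fintype A] in
/-- Parseval for the coefficient function -/
theorem pars {θ : Λ → ℂ} (hθ : θ ∈ Irr Λ) (a : A) :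
    (Nat.card ((T a).map π) : ℂ) * ∑ κ, ph π X θ a κ * ph π X θ a κ⁻¹ =
      ∑ lam ∈ (IrrS_finite ((T a).map π)).toFinset, (∑ κ, ph π X θ a κ * lam κ⁻¹) ^ 2 := by
  classical
  set L := (T a).map π with hL
  have hft := Fintype.ofFinite (Irr L)
  have hsum : ∀ f : K → ℂ, ∑ κ, ph π X θ a κ * f κ = ∑ κ : L, ph π X θ a κ * f κ := by
    intro f
    have h4 : ∑ κ : K, ph π X θ a κ * f κ =
        ∑ κ ∈ Finset.univ.filter (fun κ => κ ∈ L), ph π X θ a κ * f κ := by
      symm
      apply Finset.sum_subset (Finset.subset_univ _)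
      intro κ _ hκ
      rw [H.ph_off θ a, zero_mul]
      intro h
      exact hκ (Finset.mem_filter.2 ⟨Finset.mem_univ _, h⟩)
    rw [h4]
    symm
    apply Finset.sum_bij (fun (x : L) _ => (x : K))
    · intro x _
      exact Finset.mem_filter.2 ⟨Finset.mem_univ _, x.2⟩
    · intro x _ y _ h; exact Subtype.ext h
    · intro κ hκ
      exact ⟨⟨κ, (Finset.mem_filter.1 hκ).2⟩, Finset.mem_univ _, rfl⟩
    · intro x _; rfl
  have h := parseval (f := fun κ : L => ph π X θ a κ) (by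
    intro g h
    obtain ⟨s, hs, hsh⟩ := h.2
    have : ((h * g * h⁻¹ : L) : K) = π s * g * (π s)⁻¹ := by
      rw [hsh]; rfl
    rw [this]
    exact H.ph_class hθ a hs _)
  rw [hsum (fun κ => ph π X θ a κ⁻¹), Nat.card_eq_fintype_card]
  have h' : (Fintype.card L : ℂ) * ∑ κ : L, ph π X θ a κ * ph π X θ a (κ : K)⁻¹ =
      ∑ χ : Irr L, (∑ g : L, ph π X θ a g * (χ : L → ℂ) g⁻¹) ^ 2 := h
  rw [h']
  symm
  apply Finset.sum_bij (fun lam hlam => (⟨fun x : L => lam x,
    ((IrrS_finite L).mem_toFinset.1 hlam).2⟩ : Irr L))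
  · intro lam _
    exact Finset.mem_univ _
  · intro lam hlam mu hmu h
    have h1 := congrArg Subtype.val h
    exact IrrS_ext ((IrrS_finite L).mem_toFinset.1 hlam) ((IrrS_finite L).mem_toFinset.1 hmu)
      (fun x => congrFun h1 x)
  · intro χ _
    obtain ⟨lam, hl, hlχ⟩ := exists_IrrS L χ.2
    exact ⟨lam, (IrrS_finite L).mem_toFinset.2 hl, Subtype.ext (funext hlχ)⟩
  · intro lam hlam
    rw [hsum (fun κ => lam κ⁻¹)]
    rfl

omit [Fintype A] in
theorem coeff {θ : Λ → ℂ} (hθ : θ ∈ Irr Λ) (a : A) {lam : K → ℂ}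
    (hl : lam ∈ IrrS ((T a).map π)) [Decidable (Th π X T a lam = θ)] :
    ∑ κ, ph π X θ a κ * lam κ⁻¹ =
      if Th π X T a lam = θ then (Nat.card ((T a).map π) : ℂ) else 0 := by
  classical
  have hY : (Fintype.card π.ker : ℂ) ≠ 0 := by exact_mod_cast Fintype.card_ne_zero
  have hΛ : (Fintype.card Λ : ℂ) ≠ 0 := by exact_mod_cast Fintype.card_ne_zero
  have hT : (Nat.card (T a) : ℂ) ≠ 0 := by exact_mod_cast Nat.card_pos.ne'
  apply mul_left_cancel₀ (mul_ne_zero hΛ hY)
  have h1 : (Fintype.card π.ker : ℂ) * ∑ κ, ph π X θ a κ * lam κ⁻¹ =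
      ∑ g, θ g * (X a g⁻¹ * lam (π g⁻¹)) := by
    rw [Finset.mul_sum, sum_fib π]
    apply Finset.sum_congr rfl
    intro κ _
    unfold ph
    rw [div_mul_eq_mul_div, mul_div_cancel₀ _ hY, Finset.sum_mul]
    apply Finset.sum_congr rfl
    intro g _
    split_ifs with hg
    · rw [map_inv, hg]; ring
    · rw [zero_mul]
  have h2 : ∑ g, θ g * (X a g⁻¹ * lam (π g⁻¹)) = ∑ g, (X a g * lam (π g)) * θ g⁻¹ := by
    rw [← Equiv.sum_comp (Equiv.inv Λ)]
    apply Finset.sum_congr rfl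
    intro g _
    simp only [Equiv.inv_apply, inv_inv]
    ring
  have h3 := ind_inner (T a) (fun t => X a t * lam (π t)) θ (fun g k => irr_conj hθ g k)
  rw [mul_assoc, h1, h2, ← h3]
  have h4 : ∑ g, ind (T a) (fun t => X a t * lam (π t)) g * θ g⁻¹ =
      if Th π X T a lam = θ then (Fintype.card Λ : ℂ) else 0 := by
    split_ifs with he
    · rw [← irr_orth_self hθ]
      apply Finset.sum_congr rfl
      intro g _
      congr 1
      exact congrFun he g
    · exact irr_orth_ne (H.Th_mem a hl) hθ he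
  rw [h4]
  split_ifs with he
  · rw [H.card_T a]; ring
  · ring

/-- the main count for one character -/
theorem count {θ : Λ → ℂ} (hθ : θ ∈ Irr Λ) [DecidableEq (Λ → ℂ)] :
    ∑ a, Nat.card (T a) *
      ((IrrS_finite ((T a).map π)).toFinset.filter (fun lam => Th π X T a lam = θ)).card =
      Fintype.card Λ := by
  classical
  have hY : (Fintype.card π.ker : ℂ) ≠ 0 := by exact_mod_cast Fintype.card_ne_zero
  have h1 : (Fintype.card Λ : ℂ) = ∑ a, ∑ g, ph π X θ a (π g) * (X a g * θ g⁻¹) := by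
    rw [← irr_orth_self hθ, Finset.sum_comm]
    apply Finset.sum_congr rfl
    intro g _
    conv_lhs => rw [H.expand hθ g]
    rw [Finset.sum_mul]
    apply Finset.sum_congr rfl
    intro a _
    ring
  have h2 : ∀ a, ∑ g, ph π X θ a (π g) * (X a g * θ g⁻¹) =
      (Fintype.card π.ker : ℂ) * ∑ κ, ph π X θ a κ * ph π X θ a κ⁻¹ := by
    intro a
    rw [sum_fib π, Finset.mul_sum]
    apply Finset.sum_congr rfl
    intro κ _
    have e1 : ∑ g, (if π g = κ then ph π X θ a (π g) * (X a g * θ g⁻¹) else 0) =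
        ph π X θ a κ * ∑ g, (if π g = κ⁻¹ then θ g * X a g⁻¹ else 0) := by
      rw [Finset.mul_sum, ← Equiv.sum_comp (Equiv.inv Λ)]
      apply Finset.sum_congr rfl
      intro g _
      simp only [Equiv.inv_apply, inv_inv, map_inv]
      have e2 : (π g)⁻¹ = κ ↔ π g = κ⁻¹ := inv_eq_iff_eq_inv
      simp only [e2]
      split_ifs with hg
      · rw [hg, inv_inv]; ring
      · rw [mul_zero]
    rw [e1]
    conv_rhs => rw [ph]
    unfold ph
    field_simp
  have h3 : ∀ a, (Fintype.card π.ker : ℂ) * ∑ κ, ph π X θ a κ * ph π X θ a κ⁻¹ =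
      (Nat.card (T a) : ℂ) *
        (((IrrS_finite ((T a).map π)).toFinset.filter (fun lam => Th π X T a lam = θ)).card :
          ℂ) := by
    intro a
    have hL : (Nat.card ((T a).map π) : ℂ) ≠ 0 := by exact_mod_cast Nat.card_pos.ne'
    apply mul_left_cancel₀ hL
    have := H.pars hθ a
    calc (Nat.card ((T a).map π) : ℂ) * ((Fintype.card π.ker : ℂ) *
          ∑ κ, ph π X θ a κ * ph π X θ a κ⁻¹)
        = (Fintype.card π.ker : ℂ) * ((Nat.card ((T a).map π) : ℂ) *
          ∑ κ, ph π X θ a κ * ph π X θ a κ⁻¹) := by ring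
      _ = (Fintype.card π.ker : ℂ) * ∑ lam ∈ (IrrS_finite ((T a).map π)).toFinset,
          (if Th π X T a lam = θ then (Nat.card ((T a).map π) : ℂ) ^ 2 else 0) := by
          rw [this]
          congr 1
          apply Finset.sum_congr rfl
          intro lam hlam
          rw [H.coeff hθ a ((Set.Finite.mem_toFinset _).1 hlam)]
          split_ifs <;> ring
      _ = _ := by
          rw [Finset.sum_ite, Finset.sum_const_zero, add_zero, Finset.sum_const, nsmul_eq_mul,
            H.card_T a]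
          ring
  have h4 : ((∑ a, Nat.card (T a) *
      ((IrrS_finite ((T a).map π)).toFinset.filter (fun lam => Th π X T a lam = θ)).card : ℕ) :
        ℂ) = (Fintype.card Λ : ℂ) := by
    rw [h1]
    push_cast
    apply Finset.sum_congr rfl
    intro a _
    rw [h2, h3]
  exact_mod_cast h4

end Hyp

end main

/-- module CLIFF -/
theorem cliff : CliffStmt := by
  intro Λ K A _ _ _ _ _ π ν X T h1 h2 h3 h4 h5 h6 S
  classical
  have := Fintype.ofFinite Λ
  have := Fintype.ofFinite K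
  have := Fintype.ofFinite π.ker
  have H : Hyp π ν X T := ⟨h1, h2, h3, h4, h5, h6⟩
  set I : Finset (Λ → ℂ) := (irr_finite' (G := Λ)).toFinset.filter (fun θ => θ ∈ S) with hI
  have e1 : {θ | θ ∈ Irr Λ ∧ θ ∈ S}.ncard = I.card := by
    rw [← Set.ncard_coe_finset]
    congr 1
    ext θ
    simp [hI]
  have e2 : ∀ a, {lam | lam ∈ IrrS ((T a).map π) ∧
      ind (T a) (fun t => X a t * lam (π t)) ∈ S}.ncard =
      ∑ θ ∈ I, ((IrrS_finite ((T a).map π)).toFinset.filter
        (fun lam => Hyp.Th π X T a lam = θ)).card := by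
    intro a
    set J : Finset (K → ℂ) := (IrrS_finite ((T a).map π)).toFinset.filter
      (fun lam => Hyp.Th π X T a lam ∈ S) with hJ
    have e3 : {lam | lam ∈ IrrS ((T a).map π) ∧
        ind (T a) (fun t => X a t * lam (π t)) ∈ S}.ncard = J.card := by
      rw [← Set.ncard_coe_finset]
      congr 1
      ext lam
      simp only [hJ, Set.mem_ofPred_eq, Finset.coe_filter, Set.Finite.mem_toFinset]
      rfl
    rw [e3, Finset.card_eq_sum_card_fiberwise (f := fun lam => Hyp.Th π X T a lam) (t := I)]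
    · apply Finset.sum_congr rfl
      intro θ hθ
      congr 1
      ext lam
      simp only [hJ, Finset.mem_filter]
      constructor
      · rintro ⟨⟨ha, _⟩, hb⟩
        exact ⟨ha, hb⟩
      · rintro ⟨ha, hb⟩
        refine ⟨⟨ha, ?_⟩, hb⟩
        rw [hb]
        exact (Finset.mem_filter.1 hθ).2
    · intro lam hlam
      have hlam' := Finset.mem_filter.1 (Finset.mem_coe.1 hlam)
      apply Finset.mem_coe.2
      rw [hI, Finset.mem_filter, Set.Finite.mem_toFinset]
      exact ⟨H.Th_mem a ((Set.Finite.mem_toFinset _).1 hlam'.1), hlam'.2⟩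
  rw [e1]
  simp_rw [e2, Finset.mul_sum]
  rw [Finset.sum_comm]
  have e4 : ∀ θ ∈ I, ∑ a, Nat.card (T a) * ((IrrS_finite ((T a).map π)).toFinset.filter
        (fun lam => Hyp.Th π X T a lam = θ)).card = Nat.card Λ := by
    intro θ hθ
    rw [Nat.card_eq_fintype_card]
    exact H.count ((Set.Finite.mem_toFinset _).1 (Finset.mem_filter.1 hθ).1)
  rw [Finset.sum_congr rfl e4, Finset.sum_const, smul_eq_mul, mul_comm]

end Pool.Agent.Helper79_WRA.H44
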