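import Pool.Agent.Helper79_WRA.Basic
import Pool.Agent.Helper79_WRA.Stmt
import Pool.Agent.Helper51_AWC.PiChar

/-!
WRA, module CLIFF, part 1: Schur's lemma for matrix representations known through the norms of
their characters, orthogonality of matrix coefficients, completeness.
-/

open scoped BigOperators
open Module

noncomputable section

namespace Pool.Agent.Helper79_WRA.H44

open Pool.Agent.Helper51_AWC

section schur

variable {Y : Type} [Group Y] {n m : ℕ}

/-- the representation of a matrix representation -/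
def rep (P : Y →* Matrix (Fin n) (Fin n) ℂ) : Representation ℂ Y (Fin n → ℂ) :=
  (Matrix.toLinAlgEquiv' :
    Matrix (Fin n) (Fin n) ℂ ≃ₐ[ℂ] _).toRingEquiv.toMulEquiv.toMonoidHom.comp P

theorem rep_apply (P : Y →* Matrix (Fin n) (Fin n) ℂ) (y : Y) :
    rep P y = Matrix.toLin' (P y) := rfl

theorem rep_char (P : Y →* Matrix (Fin n) (Fin n) ℂ) (y : Y) :
    (rep P).character y = (P y).trace := by
  simp only [Representation.character]
  rw [LinearMap.trace_eq_matrix_trace ℂ (Pi.basisFun ℂ (Fin n))]
  congr 1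
  show LinearMap.toMatrix (Pi.basisFun ℂ (Fin n)) (Pi.basisFun ℂ (Fin n))
    (Matrix.toLin' (P y)) = P y
  rw [LinearMap.toMatrix_eq_toMatrix', LinearMap.toMatrix'_toLin']

variable [Fintype Y]

/-- Schur's lemma, orthogonal characters -/
theorem schur_zero (P : Y →* Matrix (Fin n) (Fin n) ℂ) (Q : Y →* Matrix (Fin m) (Fin m) ℂ)
    (h : ∑ y, (P y).trace * (Q y⁻¹).trace = 0) (M : Matrix (Fin n) (Fin m) ℂ)
    (hM : ∀ z, P z * M = M * Q z) : M = 0 := by
  have hc : (Nat.card Y : ℂ) ≠ 0 := by exact_mod_cast Nat.card_pos.ne'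
  have hinv := invertibleOfNonzero hc
  have h1 := Representation.card_inv_mul_sum_char_mul_char_eq_finrank (rep Q) (rep P)
  simp_rw [rep_char] at h1
  rw [h, mul_zero] at h1
  have h2 : finrank ℂ (Representation.IntertwiningMap (rep Q) (rep P)) = 0 := by
    exact_mod_cast h1.symm
  have hfin : FiniteDimensional ℂ (Representation.IntertwiningMap (rep Q) (rep P)) :=
    Module.Finite.equiv (Representation.invariantsEquivIntertwiningMap (rep Q) (rep P))
  have h3 := Module.finrank_zero_iff.1 h2
  let T : Representation.IntertwiningMap (rep Q) (rep P) := ⟨Matrix.toLin' M, by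
    intro z
    rw [rep_apply, rep_apply, ← Matrix.toLin'_mul, ← Matrix.toLin'_mul, hM]⟩
  have h4 : T = 0 := Subsingleton.elim _ _
  have h5 := congrArg Representation.IntertwiningMap.toLinearMap h4
  exact (LinearEquiv.map_eq_zero_iff _).1 h5

/-- Schur's lemma, character of norm one -/
theorem schur_one (P : Y →* Matrix (Fin n) (Fin n) ℂ)
    (h : ∑ y, (P y).trace * (P y⁻¹).trace = Fintype.card Y) (M : Matrix (Fin n) (Fin n) ℂ)
    (hM : ∀ z, P z * M = M * P z) : ∃ c : ℂ, M = c • (1 : Matrix (Fin n) (Fin n) ℂ) := by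
  have hc : (Nat.card Y : ℂ) ≠ 0 := by exact_mod_cast Nat.card_pos.ne'
  have hinv := invertibleOfNonzero hc
  have h1 := Representation.card_inv_mul_sum_char_mul_char_eq_finrank (rep P) (rep P)
  simp_rw [rep_char] at h1
  rw [h, ← Nat.card_eq_fintype_card, inv_mul_cancel₀ hc] at h1
  have h2 : finrank ℂ (Representation.IntertwiningMap (rep P) (rep P)) = 1 := by
    exact_mod_cast h1.symm
  let T : Representation.IntertwiningMap (rep P) (rep P) := ⟨Matrix.toLin' M, by
    intro z
    rw [rep_apply, ← Matrix.toLin'_mul, ← Matrix.toLin'_mul, hM]⟩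
  let I : Representation.IntertwiningMap (rep P) (rep P) := Representation.IntertwiningMap.id _
  have hI : I ≠ 0 := by
    intro h0
    have h5 := congrArg Representation.IntertwiningMap.toLinearMap h0
    have h6 : ∀ x : Fin n → ℂ, x = 0 := fun x => LinearMap.congr_fun h5 x
    have h7 : ∀ y, (P y).trace = 0 := by
      intro y
      rw [Matrix.trace]
      apply Finset.sum_eq_zero
      intro i _
      have := congrFun (h6 (fun _ => 1)) i
      exact absurd this one_ne_zero
    have h8 : (Fintype.card Y : ℂ) = 0 := by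
      rw [← h]
      apply Finset.sum_eq_zero
      intro y _
      rw [h7, zero_mul]
    exact (by exact_mod_cast Fintype.card_ne_zero : (Fintype.card Y : ℂ) ≠ 0) h8
  obtain ⟨c, hc'⟩ := (finrank_eq_one_iff_of_nonzero' I hI).1 h2 T
  refine ⟨c, ?_⟩
  have h5 := congrArg Representation.IntertwiningMap.toLinearMap hc'
  have h6 : Matrix.toLin' (c • (1 : Matrix (Fin n) (Fin n) ℂ)) = Matrix.toLin' M := by
    rw [map_smul, Matrix.toLin'_one]
    exact h5
  exact (Matrix.toLin'.injective h6).symm

/-- orthogonality of the matrix coefficients, different characters -/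
theorem orth_zero (P : Y →* Matrix (Fin n) (Fin n) ℂ) (Q : Y →* Matrix (Fin m) (Fin m) ℂ)
    (h : ∑ y, (P y).trace * (Q y⁻¹).trace = 0) (B : Matrix (Fin n) (Fin m) ℂ) :
    ∑ y, P y * B * Q y⁻¹ = 0 := by
  apply schur_zero P Q h
  intro z
  rw [Matrix.mul_sum, Matrix.sum_mul,
    ← Equiv.sum_comp (Equiv.mulLeft z) (fun y => P y * B * Q y⁻¹ * Q z)]
  apply Finset.sum_congr rfl
  intro y _
  rw [Equiv.coe_mulLeft, map_mul, mul_inv_rev, map_mul]
  simp only [Matrix.mul_assoc]
  rw [← map_mul, inv_mul_cancel, map_one, Matrix.mul_one]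

/-- orthogonality of the matrix coefficients, norm one -/
theorem orth_one (P : Y →* Matrix (Fin n) (Fin n) ℂ)
    (h : ∑ y, (P y).trace * (P y⁻¹).trace = Fintype.card Y) (B : Matrix (Fin n) (Fin n) ℂ) :
    (n : ℂ) ≠ 0 ∧
    ∑ y, P y * B * P y⁻¹ = ((Fintype.card Y : ℂ) * B.trace / n) •
      (1 : Matrix (Fin n) (Fin n) ℂ) := by
  have hn : (n : ℂ) ≠ 0 := by
    intro h0
    have hn0 : n = 0 := by exact_mod_cast h0
    subst hn0
    have h8 : (Fintype.card Y : ℂ) = 0 := by
      rw [← h]
      apply Finset.sum_eq_zero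
      intro y _
      rw [Matrix.trace, Finset.univ_eq_empty, Finset.sum_empty, zero_mul]
    exact (by exact_mod_cast Fintype.card_ne_zero : (Fintype.card Y : ℂ) ≠ 0) h8
  refine ⟨hn, ?_⟩
  obtain ⟨c, hc⟩ := schur_one P h (∑ y, P y * B * P y⁻¹) (by
    intro z
    rw [Matrix.mul_sum, Matrix.sum_mul,
      ← Equiv.sum_comp (Equiv.mulLeft z) (fun y => P y * B * P y⁻¹ * P z)]
    apply Finset.sum_congr rfl
    intro y _
    rw [Equiv.coe_mulLeft, map_mul, mul_inv_rev, map_mul]
    simp only [Matrix.mul_assoc]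
    rw [← map_mul, inv_mul_cancel, map_one, Matrix.mul_one])
  rw [hc]
  congr 1
  have h1 := congrArg Matrix.trace hc
  rw [Matrix.trace_sum, Matrix.trace_smul, Matrix.trace_one, Fintype.card_fin] at h1
  have h2 : ∀ y, (P y * B * P y⁻¹).trace = B.trace := by
    intro y
    rw [Matrix.trace_mul_comm, ← Matrix.mul_assoc, ← map_mul, inv_mul_cancel, map_one,
      Matrix.one_mul]
  simp_rw [h2] at h1
  rw [Finset.sum_const, Finset.card_univ, nsmul_eq_mul] at h1
  rw [h1, smul_eq_mul, mul_div_assoc, div_self hn, mul_one]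

/-- orthogonality in trace form, different characters -/
theorem tr_orth_zero (P : Y →* Matrix (Fin n) (Fin n) ℂ) (Q : Y →* Matrix (Fin m) (Fin m) ℂ)
    (h : ∑ y, (P y).trace * (Q y⁻¹).trace = 0) (A : Matrix (Fin n) (Fin n) ℂ)
    (B : Matrix (Fin m) (Fin m) ℂ) :
    ∑ y, (P y * A).trace * (B * Q y⁻¹).trace = 0 := by
  classical
  have h1 : ∀ i j k l, ∑ y, P y i j * Q y⁻¹ k l = 0 := by
    intro i j k l
    have := congrFun (congrFun (orth_zero P Q h (Matrix.single j k 1)) i) l
    rw [Matrix.sum_apply] at this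
    rw [Matrix.zero_apply] at this
    rw [← this]
    apply Finset.sum_congr rfl
    intro y _
    rw [Matrix.mul_apply, Finset.sum_eq_single_of_mem k (Finset.mem_univ _)]
    · rw [Matrix.mul_single_apply_same, mul_one]
    · intro b _ hb
      rw [Matrix.mul_single_apply_of_ne _ _ _ _ _ hb.symm.symm, zero_mul]
  have h2 : ∀ y, (P y * A).trace * (B * Q y⁻¹).trace =
      ∑ i, ∑ j, ∑ k, ∑ l, A j i * B l k * (P y i j * Q y⁻¹ k l) := by
    intro y
    simp only [Matrix.trace, Matrix.diag_apply, Matrix.mul_apply, Finset.sum_mul_sum]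
    apply Finset.sum_congr rfl
    intro i _
    rw [Finset.sum_comm]
    apply Finset.sum_congr rfl
    intro j _
    rw [Finset.sum_comm]
    apply Finset.sum_congr rfl
    intro k _
    apply Finset.sum_congr rfl
    intro l _
    ring
  simp_rw [h2]
  rw [Finset.sum_comm]
  apply Finset.sum_eq_zero
  intro i _
  rw [Finset.sum_comm]
  apply Finset.sum_eq_zero
  intro j _
  rw [Finset.sum_comm]
  apply Finset.sum_eq_zero
  intro k _
  rw [Finset.sum_comm]
  apply Finset.sum_eq_zero
  intro l _
  rw [← Finset.mul_sum, h1, mul_zero]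

/-- orthogonality in trace form, norm one -/
theorem tr_orth_one (P : Y →* Matrix (Fin n) (Fin n) ℂ)
    (h : ∑ y, (P y).trace * (P y⁻¹).trace = Fintype.card Y) (A B : Matrix (Fin n) (Fin n) ℂ)
    (hAB : A * B = 1) :
    ∑ y, (P y * A).trace * (B * P y⁻¹).trace = Fintype.card Y := by
  classical
  have hn := (orth_one P h 1).1
  have h1 : ∀ i j k l, ∑ y, P y i j * P y⁻¹ k l =
      (Fintype.card Y : ℂ) / n * (if j = k then 1 else 0) * (if i = l then 1 else 0) := by
    intro i j k l
    have := congrFun (congrFun (orth_one P h (Matrix.single j k 1)).2 i) l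
    rw [Matrix.sum_apply] at this
    rw [Matrix.smul_apply, Matrix.one_apply] at this
    have e : (Matrix.single j k (1 : ℂ)).trace = if j = k then 1 else 0 := by
      split_ifs with hjk
      · subst hjk; exact Matrix.trace_single_eq_same _ _
      · exact Matrix.trace_single_eq_of_ne _ _ _ hjk
    rw [e] at this
    have e2 : ∑ y, P y i j * P y⁻¹ k l = ∑ y, (P y * Matrix.single j k (1 : ℂ) * P y⁻¹ :
        Matrix (Fin n) (Fin n) ℂ) i l := by
      apply Finset.sum_congr rfl
      intro y _
      rw [Matrix.mul_apply, Finset.sum_eq_single_of_mem k (Finset.mem_univ _)]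
      · rw [Matrix.mul_single_apply_same, mul_one]
      · intro b _ hb
        rw [Matrix.mul_single_apply_of_ne _ _ _ _ _ hb.symm.symm, zero_mul]
    rw [e2, this, smul_eq_mul]
    ring
  have h2 : ∀ y, (P y * A).trace * (B * P y⁻¹).trace =
      ∑ i, ∑ j, ∑ k, ∑ l, A j i * B l k * (P y i j * P y⁻¹ k l) := by
    intro y
    simp only [Matrix.trace, Matrix.diag_apply, Matrix.mul_apply, Finset.sum_mul_sum]
    apply Finset.sum_congr rfl
    intro i _
    rw [Finset.sum_comm]
    apply Finset.sum_congr rfl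
    intro j _
    rw [Finset.sum_comm]
    apply Finset.sum_congr rfl
    intro k _
    apply Finset.sum_congr rfl
    intro l _
    ring
  have h3 : ∑ y, (P y * A).trace * (B * P y⁻¹).trace =
      ∑ i, ∑ j, ∑ k, ∑ l, A j i * B l k * ∑ y, (P y i j * P y⁻¹ k l) := by
    simp_rw [h2]
    rw [Finset.sum_comm]
    apply Finset.sum_congr rfl
    intro i _
    rw [Finset.sum_comm]
    apply Finset.sum_congr rfl
    intro j _
    rw [Finset.sum_comm]
    apply Finset.sum_congr rfl
    intro k _
    rw [Finset.sum_comm]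
    apply Finset.sum_congr rfl
    intro l _
    rw [← Finset.mul_sum]
  rw [h3]
  simp_rw [h1]
  have h4 : ∀ i j : Fin n, ∑ k, ∑ l, A j i * B l k * ((Fintype.card Y : ℂ) / n *
      (if j = k then 1 else 0) * (if i = l then 1 else 0)) =
      (Fintype.card Y : ℂ) / n * (A j i * B i j) := by
    intro i j
    rw [Finset.sum_eq_single_of_mem j (Finset.mem_univ _)]
    · rw [Finset.sum_eq_single_of_mem i (Finset.mem_univ _)]
      · rw [if_pos rfl, if_pos rfl]; ring
      · intro l _ hl
        rw [if_neg hl.symm, mul_zero, mul_zero]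
    · intro k _ hk
      apply Finset.sum_eq_zero
      intro l _
      rw [if_neg hk.symm, mul_zero, zero_mul, mul_zero]
  simp_rw [h4, ← Finset.mul_sum]
  have h5 : ∑ i, ∑ j, A j i * B i j = (A * B).trace := by
    rw [Finset.sum_comm]
    simp only [Matrix.trace, Matrix.diag_apply, Matrix.mul_apply]
  rw [h5, hAB, Matrix.trace_one, Fintype.card_fin, div_mul_cancel₀ _ hn]

/-- completeness: a function all of whose translates are orthogonal to all irreducible characters
vanishes -/
theorem complete_translates (F : Y → ℂ)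
    (h : ∀ χ ∈ Irr Y, ∀ x, ∑ y, F y * χ (y⁻¹ * x) = 0) : F = 0 := by
  funext x
  have hH : (fun y => ∑ u : Y, F (x * (u * y * u⁻¹))) = 0 := by
    apply irr_complete'
    · intro g k
      rw [← Equiv.sum_comp (Equiv.mulRight k) (fun u : Y => F (x * (u * g * u⁻¹)))]
      apply Finset.sum_congr rfl
      intro u _
      rw [Equiv.coe_mulRight]
      congr 2
      group
    · intro χ hχ
      simp_rw [Finset.sum_mul]
      rw [Finset.sum_comm]
      apply Finset.sum_eq_zero
      intro u _
      rw [← h χ hχ x]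
      apply Fintype.sum_equiv ((MulAut.conj u).toEquiv.trans (Equiv.mulLeft x))
      intro y
      show F (x * (u * y * u⁻¹)) * χ y⁻¹ = F (x * (u * y * u⁻¹)) * χ ((x * (u * y * u⁻¹))⁻¹ * x)
      congr 1
      rw [← irr_conj hχ y⁻¹ u]
      congr 1
      group
  have h2 := congrFun hH 1
  simp only [mul_one, mul_inv_cancel, Finset.sum_const, Finset.card_univ, nsmul_eq_mul,
    Pi.zero_apply] at h2
  rcases mul_eq_zero.1 h2 with h3 | h3
  · exact absurd h3 (by exact_mod_cast Fintype.card_ne_zero)
  · exact h3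

end schur

end Pool.Agent.Helper79_WRA.H44
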